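import Mathlib

set_option autoImplicit false

namespace Pool.Agent.Sat448

open List

variable {U V W : Type}

/-- Two edges have a common vertex. -/
def Touch (e e' : Sym2 V) : Prop := ∃ v, v ∈ e ∧ v ∈ e'

theorem Touch.symm {e e' : Sym2 V} (h : Touch e e') : Touch e' e := by
  obtain ⟨v, h1, h2⟩ := h
  exact ⟨v, h2, h1⟩

theorem Touch.refl (e : Sym2 V) : Touch e e := by
  induction e using Sym2.ind with
  | _ a b => exact ⟨a, by simp, by simp⟩

theorem Touch.map {e e' : Sym2 U} (h : Touch e e') (f : U → V) :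
    Touch (Sym2.map f e) (Sym2.map f e') := by
  obtain ⟨v, h1, h2⟩ := h
  exact ⟨f v, Sym2.mem_map.2 ⟨v, h1, rfl⟩, Sym2.mem_map.2 ⟨v, h2, rfl⟩⟩

theorem touch_map_inj {e e' : Sym2 U} {f : U → V} (hf : Function.Injective f)
    (h : Touch (Sym2.map f e) (Sym2.map f e')) : Touch e e' := by
  obtain ⟨v, h1, h2⟩ := h
  obtain ⟨a, ha, rfl⟩ := Sym2.mem_map.1 h1
  obtain ⟨b, hb, hab⟩ := Sym2.mem_map.1 h2
  exact ⟨a, ha, by rw [← hf hab]; exact hb⟩

/-- Lists of edges without common vertices. -/
def Dsj (A B : List (Sym2 V)) : Prop := ∀ e ∈ A, ∀ e' ∈ B, ¬ Touch e e'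

theorem Dsj.symm {A B : List (Sym2 V)} (h : Dsj A B) : Dsj B A :=
  fun e he e' he' ht => h e' he' e he ht.symm

theorem Dsj.mono {A B A' B' : List (Sym2 V)} (h : Dsj A B) (hA : A' ⊆ A) (hB : B' ⊆ B) :
    Dsj A' B' := fun e he e' he' => h e (hA he) e' (hB he')

theorem dsj_append_right {A B C : List (Sym2 V)} : Dsj A (B ++ C) ↔ Dsj A B ∧ Dsj A C := by
  constructor
  · intro h
    exact ⟨h.mono (fun _ x => x) (by simp), h.mono (fun _ x => x) (by simp)⟩
  · rintro ⟨h1, h2⟩ e he e' he'
    rcases List.mem_append.1 he' with h | h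
    · exact h1 e he e' h
    · exact h2 e he e' h

theorem dsj_append_left {A B C : List (Sym2 V)} : Dsj (A ++ B) C ↔ Dsj A C ∧ Dsj B C := by
  constructor
  · intro h
    have := dsj_append_right.1 h.symm
    exact ⟨this.1.symm, this.2.symm⟩
  · rintro ⟨h1, h2⟩
    exact (dsj_append_right.2 ⟨h1.symm, h2.symm⟩).symm

theorem Dsj.map_inj {A B : List (Sym2 U)} (h : Dsj A B) {f : U → V}
    (hf : Function.Injective f) : Dsj (A.map (Sym2.map f)) (B.map (Sym2.map f)) := by
  intro e he e' he' ht
  obtain ⟨a, ha, rfl⟩ := List.mem_map.1 he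
  obtain ⟨b, hb, rfl⟩ := List.mem_map.1 he'
  exact h a ha b hb (touch_map_inj hf ht)

/-- A list of edges which is not the concatenation of two vertex-disjoint nonempty lists. -/
def Irr (F : List (Sym2 V)) : Prop := ∀ A B, F = A ++ B → A ≠ [] → B ≠ [] → ¬ Dsj A B

/-- There are two different edges with a common vertex. -/
def HasPair (X : List (Sym2 V)) : Prop := ∃ e ∈ X, ∃ e' ∈ X, e ≠ e' ∧ Touch e e'

theorem sub_split {Z : List (Sym2 U)} {f : U → V} {P Q : List (Sym2 V)}
    (h : Z.map (Sym2.map f) <+ P ++ Q) :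
    ∃ Z₁ Z₂, Z = Z₁ ++ Z₂ ∧ Z₁.map (Sym2.map f) <+ P ∧ Z₂.map (Sym2.map f) <+ Q := by
  obtain ⟨A, B, hAB, hA, hB⟩ := List.sublist_append_iff.1 h
  obtain ⟨Z₁, Z₂, h1, h2, h3⟩ := List.map_eq_append_iff.1 hAB
  exact ⟨Z₁, Z₂, h1, by rw [h2]; exact hA, by rw [h3]; exact hB⟩

theorem dsj_of_map {A B : List (Sym2 U)} {f : U → V} {P Q : List (Sym2 V)}
    (hA : A.map (Sym2.map f) <+ P) (hB : B.map (Sym2.map f) <+ Q) (h : Dsj P Q) : Dsj A B := by
  intro e he e' he' ht
  exact h _ (hA.subset (List.mem_map_of_mem he)) _ (hB.subset (List.mem_map_of_mem he'))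
    (ht.map f)

theorem irr_map {F : List (Sym2 U)} (hF : Irr F) {f : U → V} {P Q : List (Sym2 V)}
    (h : F.map (Sym2.map f) <+ P ++ Q) (hd : Dsj P Q) :
    F.map (Sym2.map f) <+ P ∨ F.map (Sym2.map f) <+ Q := by
  obtain ⟨A, B, hAB, hA, hB⟩ := sub_split h
  by_cases h1 : A = []
  · subst h1
    right
    rw [hAB]
    simpa using hB
  by_cases h2 : B = []
  · subst h2
    left
    rw [hAB]
    simpa using hA
  exact absurd (dsj_of_map hA hB hd) (hF A B hAB h1 h2)

theorem irr_split {X F Y : List (Sym2 U)} (hF : Irr F) {f : U → V} {P Q : List (Sym2 V)}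
    (h : (X ++ (F ++ Y)).map (Sym2.map f) <+ P ++ Q) (hd : Dsj P Q) :
    (X ++ F).map (Sym2.map f) <+ P ∨ (F ++ Y).map (Sym2.map f) <+ Q := by
  obtain ⟨A, B, hAB, hA, hB⟩ := sub_split h
  rcases List.append_eq_append_iff.1 hAB with ⟨c, hc1, hc2⟩ | ⟨c, hc1, hc2⟩
  · -- A = X ++ c, F ++ Y = c ++ B
    rcases List.append_eq_append_iff.1 hc2 with ⟨d, hd1, hd2⟩ | ⟨d, hd1, hd2⟩
    · -- c = F ++ d
      left
      refine List.Sublist.trans ?_ hA
      rw [hc1, hd1]
      exact List.Sublist.map _ (by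
        rw [← List.append_assoc]
        exact List.sublist_append_left _ _)
    · -- F = c ++ d, B = d ++ Y
      by_cases h1 : c = []
      · subst h1
        right
        rw [hd1]
        simp only [List.nil_append]
        rw [← hd2]
        exact hB
      by_cases h2 : d = []
      · subst h2
        left
        rw [hd1]
        simp only [List.append_nil]
        rw [← hc1]
        exact hA
      exfalso
      refine hF c d hd1 h1 h2 (dsj_of_map (f := f) (List.Sublist.trans ?_ hA)
        (List.Sublist.trans ?_ hB) hd)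
      · rw [hc1]
        exact List.Sublist.map _ (List.sublist_append_right _ _)
      · rw [hd2]
        exact List.Sublist.map _ (List.sublist_append_left _ _)
  · -- X = A ++ c, B = c ++ (F ++ Y)
    right
    refine List.Sublist.trans ?_ hB
    rw [hc2]
    exact List.Sublist.map _ (List.sublist_append_right _ _)

/-- The nested shuffle of three copies of `A ++ B`. -/
def mix (p q r : U → V) (A B : List (Sym2 U)) : List (Sym2 V) :=
  A.map (Sym2.map p) ++ (A.map (Sym2.map q) ++ ((A ++ B).map (Sym2.map r) ++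
    (B.map (Sym2.map q) ++ B.map (Sym2.map p))))

/-- The images of the edges of `S` under two different ones of the three maps do not touch. -/
structure Sep (S : List (Sym2 U)) (p q r : U → V) : Prop where
  p_inj : Function.Injective p
  q_inj : Function.Injective q
  r_inj : Function.Injective r
  pq : ∀ e ∈ S, ∀ e' ∈ S, ¬ Touch (Sym2.map p e) (Sym2.map q e')
  pr : ∀ e ∈ S, ∀ e' ∈ S, ¬ Touch (Sym2.map p e) (Sym2.map r e')
  qr : ∀ e ∈ S, ∀ e' ∈ S, ¬ Touch (Sym2.map q e) (Sym2.map r e')

theorem Sep.mono {S S' : List (Sym2 U)} {p q r : U → V} (h : Sep S p q r) (hS : S' ⊆ S) :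
    Sep S' p q r where
  p_inj := h.p_inj
  q_inj := h.q_inj
  r_inj := h.r_inj
  pq := fun e he e' he' => h.pq e (hS he) e' (hS he')
  pr := fun e he e' he' => h.pr e (hS he) e' (hS he')
  qr := fun e he e' he' => h.qr e (hS he) e' (hS he')

theorem Sep.dsj_pq {S A B : List (Sym2 U)} {p q r : U → V} (h : Sep S p q r) (hA : A ⊆ S)
    (hB : B ⊆ S) : Dsj (A.map (Sym2.map p)) (B.map (Sym2.map q)) := by
  intro e he e' he'
  obtain ⟨a, ha, rfl⟩ := List.mem_map.1 he
  obtain ⟨b, hb, rfl⟩ := List.mem_map.1 he'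
  exact h.pq a (hA ha) b (hB hb)

theorem Sep.dsj_pr {S A B : List (Sym2 U)} {p q r : U → V} (h : Sep S p q r) (hA : A ⊆ S)
    (hB : B ⊆ S) : Dsj (A.map (Sym2.map p)) (B.map (Sym2.map r)) := by
  intro e he e' he'
  obtain ⟨a, ha, rfl⟩ := List.mem_map.1 he
  obtain ⟨b, hb, rfl⟩ := List.mem_map.1 he'
  exact h.pr a (hA ha) b (hB hb)

theorem Sep.dsj_qr {S A B : List (Sym2 U)} {p q r : U → V} (h : Sep S p q r) (hA : A ⊆ S)
    (hB : B ⊆ S) : Dsj (A.map (Sym2.map q)) (B.map (Sym2.map r)) := by
  intro e he e' he'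
  obtain ⟨a, ha, rfl⟩ := List.mem_map.1 he
  obtain ⟨b, hb, rfl⟩ := List.mem_map.1 he'
  exact h.qr a (hA ha) b (hB hb)

/-- All copies of a part of `S` are disjoint from all copies of a vertex-disjoint part. -/
theorem Sep.dsj_all {S A B : List (Sym2 U)} {p q r : U → V} (h : Sep S p q r) (hA : A ⊆ S)
    (hB : B ⊆ S) (hAB : Dsj A B) :
    Dsj (A.map (Sym2.map p) ++ (A.map (Sym2.map q) ++ A.map (Sym2.map r)))
      (B.map (Sym2.map p) ++ (B.map (Sym2.map q) ++ B.map (Sym2.map r))) := by
  simp only [dsj_append_left, dsj_append_right]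
  exact ⟨⟨hAB.map_inj h.p_inj, (h.dsj_pq hB hA).symm, (h.dsj_pr hB hA).symm⟩,
    ⟨h.dsj_pq hA hB, hAB.map_inj h.q_inj, (h.dsj_qr hB hA).symm⟩,
    ⟨h.dsj_pr hA hB, h.dsj_qr hA hB, hAB.map_inj h.r_inj⟩⟩

theorem mix_subset (p q r : U → V) (A B : List (Sym2 U)) :
    mix p q r A B ⊆ (A ++ B).map (Sym2.map p) ++ ((A ++ B).map (Sym2.map q) ++
      (A ++ B).map (Sym2.map r)) := by
  intro e he
  simp only [mix, List.mem_append, List.map_append] at he ⊢
  tauto

/-- A list with two touching edges followed by an irreducible list is not contained in the nested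
shuffle of three copies of the irreducible list. -/
theorem mix_free {X : List (Sym2 U)} {a : Sym2 U} {B : List (Sym2 U)} {p q r : U → V}
    (hF : Irr (a :: B)) (hX : HasPair X) (hS : Sep (a :: B) p q r) {f : U → V}
    (h : (X ++ (a :: B)).map (Sym2.map f) <+ mix p q r [a] B) : False := by
  have hB : B ⊆ a :: B := List.subset_cons_self _ _
  have h' : (X ++ (a :: B)).map (Sym2.map f) <+
      [Sym2.map p a, Sym2.map q a] ++ ((a :: B).map (Sym2.map r) ++
        (B.map (Sym2.map q) ++ B.map (Sym2.map p))) := by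
    simpa [mix] using h
  -- a copy of `a :: B` is not contained in the last part
  have key : ∀ Q, Q <+ (B.map (Sym2.map q) ++ B.map (Sym2.map p)) →
      ¬ ((a :: B).map (Sym2.map f) <+ Q) := by
    intro Q hQ hc
    have hc' := hc.trans hQ
    rcases irr_map hF hc' (hS.dsj_pq hB hB).symm with h1 | h1
    · have := h1.length_le
      simp at this
    · have := h1.length_le
      simp at this
  obtain ⟨Z₁, Z₂, hZ, h1, h2⟩ := sub_split h'
  -- X is not in the first part
  have hX1 : ¬ (X.map (Sym2.map f) <+ [Sym2.map p a, Sym2.map q a]) := by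
    intro hc
    obtain ⟨e, he, e', he', hne, ht⟩ := hX
    have hnt : ¬ Touch (Sym2.map p a) (Sym2.map q a) := hS.pq a (by simp) a (by simp)
    have hnd : ([Sym2.map p a, Sym2.map q a] : List (Sym2 V)).Nodup := by
      simp only [List.nodup_cons, List.mem_singleton, List.not_mem_nil, not_false_iff,
        List.nodup_nil, and_true]
      intro hh
      apply hnt
      rw [← hh]
      exact Touch.refl _
    have hnd2 := hnd.sublist hc
    have hne2 : Sym2.map f e ≠ Sym2.map f e' := fun hh =>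
      hne (List.inj_on_of_nodup_map hnd2 he he' hh)
    have m1 := hc.subset (List.mem_map_of_mem (f := Sym2.map f) he)
    have m2 := hc.subset (List.mem_map_of_mem (f := Sym2.map f) he')
    have ht2 := ht.map f
    simp only [List.mem_cons, List.not_mem_nil, or_false] at m1 m2
    rcases m1 with m1 | m1 <;> rcases m2 with m2 | m2
    · exact hne2 (m1.trans m2.symm)
    · rw [m1, m2] at ht2
      exact hnt ht2
    · rw [m1, m2] at ht2
      exact hnt ht2.symm
    · exact hne2 (m1.trans m2.symm)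
  rcases List.append_eq_append_iff.1 hZ with ⟨c, hc1, hc2⟩ | ⟨c, hc1, hc2⟩
  · apply hX1
    refine List.Sublist.trans ?_ h1
    rw [hc1]
    exact List.Sublist.map _ (List.sublist_append_left _ _)
  · -- X = Z₁ ++ c, Z₂ = c ++ (a :: B)
    have hc0 : c ≠ [] := by
      rintro rfl
      apply hX1
      rw [hc1]
      simpa using h1
    obtain ⟨x, c', rfl⟩ := List.exists_cons_of_ne_nil hc0
    rw [hc2] at h2
    have h3 : (x :: (a :: B)).map (Sym2.map f) <+ (a :: B).map (Sym2.map r) ++
        (B.map (Sym2.map q) ++ B.map (Sym2.map p)) := by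
      refine List.Sublist.trans ?_ h2
      apply List.Sublist.map
      rw [List.cons_append]
      exact (List.sublist_append_right c' (a :: B)).cons_cons x
    obtain ⟨Y₁, Y₂, hY, g1, g2⟩ := sub_split h3
    cases Y₁ with
    | nil =>
      rw [List.nil_append] at hY
      apply key _ (List.Sublist.refl _)
      refine List.Sublist.trans ?_ g2
      rw [← hY]
      exact List.Sublist.map _ (List.sublist_cons_self _ _)
    | cons y Y₁ =>
      rw [List.cons_append] at hY
      injection hY with hy hY'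
      have hdj : Dsj ((a :: B).map (Sym2.map r)) (B.map (Sym2.map q) ++ B.map (Sym2.map p)) := by
        rw [dsj_append_right]
        exact ⟨(hS.dsj_qr hB (fun _ h => h)).symm, (hS.dsj_pr hB (fun _ h => h)).symm⟩
      by_cases e1 : Y₁ = []
      · subst e1
        rw [List.nil_append] at hY'
        apply key _ (List.Sublist.refl _)
        rw [hY']
        exact g2
      by_cases e2 : Y₂ = []
      · subst e2
        rw [List.append_nil] at hY'
        have := g1.length_le
        rw [← hY'] at this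
        simp at this
      · refine hF Y₁ Y₂ hY' e1 e2 (dsj_of_map (f := f) (List.Sublist.trans ?_ g1) g2 hdj)
        exact List.Sublist.map _ (List.sublist_cons_self _ _)

/-- concatenation of a list of factors -/
def joins (Fs : List (List (Sym2 U) × List (Sym2 U))) : List (Sym2 U) :=
  (Fs.map (fun s => s.1 ++ s.2)).flatten

theorem mem_joins {Fs : List (List (Sym2 U) × List (Sym2 U))} {e : Sym2 U} :
    e ∈ joins Fs ↔ ∃ s ∈ Fs, e ∈ s.1 ++ s.2 := by
  simp only [joins, List.mem_flatten, List.mem_map]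
  constructor
  · rintro ⟨l, ⟨s, hs, rfl⟩, he⟩
    exact ⟨s, hs, he⟩
  · rintro ⟨s, hs, he⟩
    exact ⟨_, ⟨s, hs, rfl⟩, he⟩

/-- shuffles of a list of factors, each given with its first heavy edge -/
def mixs (p q r : U → V) (Fs : List (List (Sym2 U) × List (Sym2 U))) : List (Sym2 V) :=
  (Fs.map (fun s => mix p q r s.1 s.2)).flatten

theorem mixs_subset (p q r : U → V) (Fs : List (List (Sym2 U) × List (Sym2 U))) :
    mixs p q r Fs ⊆ (joins Fs).map (Sym2.map p) ++ ((joins Fs).map (Sym2.map q) ++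
      (joins Fs).map (Sym2.map r)) := by
  intro e he
  simp only [mixs, List.mem_flatten, List.mem_map] at he
  obtain ⟨l, ⟨t, ht, rfl⟩, he⟩ := he
  have := mix_subset p q r t.1 t.2 he
  simp only [List.mem_append, List.mem_map, mem_joins] at this ⊢
  rcases this with ⟨b, hb, rfl⟩ | ⟨b, hb, rfl⟩ | ⟨b, hb, rfl⟩
  · exact Or.inl ⟨b, ⟨t, ht, hb⟩, rfl⟩
  · exact Or.inr (Or.inl ⟨b, ⟨t, ht, hb⟩, rfl⟩)
  · exact Or.inr (Or.inr ⟨b, ⟨t, ht, hb⟩, rfl⟩)

theorem mixs_free (p q r : U → V) (f : U → V)
    (Fs : List (List (Sym2 U) × List (Sym2 U)))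
    (h1 : ∀ s ∈ Fs, (∃ a, s.1 = [a]) ∧ Irr (s.1 ++ s.2) ∧ HasPair (s.1 ++ s.2))
    (h2 : Sep (joins Fs) p q r)
    (h3 : Fs.Pairwise (fun s s' => Dsj (s.1 ++ s.2) (s'.1 ++ s'.2)))
    (X : List (Sym2 U)) (hX : HasPair X) :
    ¬ ((X ++ joins Fs).map (Sym2.map f) <+ mixs p q r Fs) := by
  induction Fs generalizing X with
  | nil =>
    intro h
    obtain ⟨e, he, -⟩ := hX
    simp only [mixs, joins, List.map_nil, List.flatten_nil, List.append_nil] at h
    have := h.subset (List.mem_map_of_mem (f := Sym2.map f) he)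
    simp at this
  | cons s Fs ih =>
    intro h
    obtain ⟨⟨a, ha⟩, hirr, hpair⟩ := h1 s (by simp)
    have hsub1 : s.1 ++ s.2 ⊆ joins (s :: Fs) := by
      intro e he
      exact mem_joins.2 ⟨s, by simp, he⟩
    have hsub2 : joins Fs ⊆ joins (s :: Fs) := by
      intro e he
      obtain ⟨t, ht, he⟩ := mem_joins.1 he
      exact mem_joins.2 ⟨t, by simp [ht], he⟩
    have hdj : Dsj (s.1 ++ s.2) (joins Fs) := by
      intro e he e' he'
      obtain ⟨t, ht, he'⟩ := mem_joins.1 he'
      exact (List.pairwise_cons.1 h3).1 t ht e he e' he'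
    have hd2 : Dsj (mix p q r s.1 s.2) (mixs p q r Fs) :=
      (h2.dsj_all hsub1 hsub2 hdj).mono (mix_subset p q r s.1 s.2) (mixs_subset p q r Fs)
    have h' : (X ++ ((s.1 ++ s.2) ++ joins Fs)).map (Sym2.map f) <+
        mix p q r s.1 s.2 ++ mixs p q r Fs := by
      simpa [mixs, joins] using h
    rcases irr_split hirr h' hd2 with hh | hh
    · rw [ha] at hh hirr
      exact mix_free hirr hX ((h2.mono hsub1).mono (by rw [ha]; simp)) hh
    · exact ih (fun t ht => h1 t (by simp [ht])) (h2.mono hsub2) (List.pairwise_cons.1 h3).2 _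
        hpair hh

/-- factorisation into irreducible lists -/
theorem exists_factors (n : ℕ) : ∀ Y : List (Sym2 U), Y.length ≤ n →
    ∃ Fs : List (List (Sym2 U)), Y = Fs.flatten ∧ (∀ F ∈ Fs, F ≠ [] ∧ Irr F) ∧
      Fs.Pairwise Dsj := by
  induction n with
  | zero =>
    intro Y hY
    have : Y = [] := List.eq_nil_of_length_eq_zero (by omega)
    subst this
    exact ⟨[], by simp, by simp, List.Pairwise.nil⟩
  | succ n ih =>
    intro Y hY
    by_cases h0 : Y = []
    · subst h0
      exact ⟨[], by simp, by simp, List.Pairwise.nil⟩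
    by_cases hI : Irr Y
    · exact ⟨[Y], by simp, by simpa using ⟨h0, hI⟩, by simp⟩
    · unfold Irr at hI
      push Not at hI
      obtain ⟨A, B, hAB, hA, hB, hd⟩ := hI
      have hlA : 0 < A.length := List.length_pos_iff.2 hA
      have hlB : 0 < B.length := List.length_pos_iff.2 hB
      have hl : A.length + B.length = Y.length := by rw [hAB, List.length_append]
      obtain ⟨FA, a1, a2, a3⟩ := ih A (by omega)
      obtain ⟨FB, b1, b2, b3⟩ := ih B (by omega)
      refine ⟨FA ++ FB, by rw [List.flatten_append, ← a1, ← b1, hAB], ?_, ?_⟩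
      · intro F hF
        rcases List.mem_append.1 hF with h | h
        · exact a2 F h
        · exact b2 F h
      · rw [List.pairwise_append]
        refine ⟨a3, b3, fun F hF F' hF' => ?_⟩
        apply hd.mono
        · intro e he
          rw [a1]
          exact List.mem_flatten.2 ⟨F, hF, he⟩
        · intro e he
          rw [b1]
          exact List.mem_flatten.2 ⟨F', hF', he⟩

end Pool.Agent.Sat448
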