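import Mathlib

set_option autoImplicit false

namespace Pool.Agent.Sat448

section core

variable {U : Type} {x y : U} {n k : ℕ} {E : ℕ → Sym2 U} {s : ℕ → ℕ} {ψ : U → U}
  {J : U → Prop}

theorem iter_fact (hs : ∀ i < k, i < s i ∧ s i < n ∧ E (s i) = Sym2.map ψ (E i)) (i : ℕ)
    (hi : i < n) (m : ℕ) (hm : ∀ m' < m, s^[m'] i < k) :
    s^[m] i < n ∧ E (s^[m] i) = Sym2.map (ψ^[m]) (E i) ∧ i + m ≤ s^[m] i := by
  induction m with
  | zero => exact ⟨by simpa using hi, by simp, by simp⟩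
  | succ m ih =>
    obtain ⟨h1, h2, h3⟩ := ih (fun m' hm' => hm m' (by omega))
    have h4 := hs _ (hm m (by omega))
    rw [Function.iterate_succ_apply', Function.iterate_succ']
    refine ⟨h4.2.1, ?_, by omega⟩
    rw [h4.2.2, h2, Sym2.map_map]

theorem iter_mem (hs : ∀ i < k, i < s i ∧ s i < n ∧ E (s i) = Sym2.map ψ (E i)) (i : ℕ)
    (hi : i < n) (m : ℕ) (hm : ∀ m' < m, s^[m'] i < k) {v : U} (hv : v ∈ E i) :
    ψ^[m] v ∈ E (s^[m] i) := by
  rw [(iter_fact hs i hi m hm).2.1]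
  exact Sym2.mem_map.2 ⟨v, hv, rfl⟩

theorem core (h0 : E 0 = s(x, y)) (hk0 : 0 < k) (hkn : k < n)
    (hs : ∀ i < k, i < s i ∧ s i < n ∧ E (s i) = Sym2.map ψ (E i))
    (hmono : ∀ i j, i ≤ j → j < k → s i ≤ s j)
    (hinj : ∀ i < k, ∀ j < k, ∀ u v, u ∈ E i → v ∈ E j → ψ u = ψ v → u = v)
    (hJ : ∀ i < k, ∀ j, k ≤ j → j < n → ∀ v, v ∈ E i → v ∈ E j → J v)
    (hJ2 : ∀ v, J v → ψ v = x ∨ ψ v = y)
    (hJ3 : ∀ j, k ≤ j → j < n → ∀ u v, E j = s(u, v) → J u → J v → False)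
    (hconn : ∀ P : ℕ → Prop, (∃ i < n, P i) → (∃ i < n, ¬ P i) →
      ∃ i < n, ∃ j < n, P i ∧ ¬ P j ∧ ∃ v, v ∈ E i ∧ v ∈ E j) :
    ∃ t z zb, 0 < t ∧ ((z = x ∧ zb = y) ∨ (z = y ∧ zb = x)) ∧ (∀ m < t, s^[m] 0 < k) ∧
      J (ψ^[t] z) ∧ ψ (ψ^[t] z) = z ∧
      (∀ i < n, (∀ m < t, s^[m] i < k) → k ≤ s^[t] i ∧ s^[t] i < n ∧
        E (s^[t] i) = Sym2.map (ψ^[t]) (E i)) ∧
      (∀ i < n, (∀ m < t, s^[m] i < k) → ∀ j < n, (∀ m < t, s^[m] j < k) →
        ∀ u v, u ∈ E i → v ∈ E j → ψ^[t] u = ψ^[t] v → u = v) ∧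
      ∀ i < n, (∀ m < t, s^[m] i < k) → ∀ j < n,
        (∃ v, v ≠ z ∧ v ∈ E i ∧ v ∈ E j) → ∀ m < t, s^[m] j < k := by
  classical
  have hn0 : 0 < n := by omega
  have hex : ∃ m, k ≤ s^[m] 0 := by
    by_contra hc
    push Not at hc
    have := (iter_fact hs 0 hn0 k (fun m' _ => hc m')).2.2
    have := hc k
    omega
  obtain ⟨t, ht, htmin⟩ : ∃ t, k ≤ s^[t] 0 ∧ ∀ m < t, s^[m] 0 < k :=
    ⟨Nat.find hex, Nat.find_spec hex, fun m hm => by
      have := Nat.find_min hex hm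
      omega⟩
  have ht0 : 0 < t := by
    rcases Nat.eq_zero_or_pos t with h | h
    · subst h
      simp at ht
      omega
    · exact h
  -- comparison
  have hcmp : ∀ i < n, ∀ m ≤ t, (∀ m' < m, s^[m'] i < k) → s^[m] 0 ≤ s^[m] i := by
    intro i hi m
    induction m with
    | zero => intro _ _; simp
    | succ m ih =>
      intro hm hk
      rw [Function.iterate_succ_apply', Function.iterate_succ_apply']
      exact hmono _ _ (ih (by omega) (fun m' hm' => hk m' (by omega))) (hk m (by omega))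
  have hK : ∀ i < n, (∀ m < t, s^[m] i < k) → k ≤ s^[t] i := fun i hi hm =>
    ht.trans (hcmp i hi t le_rfl hm)
  -- exit times
  have hexit : ∀ j, (¬ ∀ m < t, s^[m] j < k) → ∃ d < t, k ≤ s^[d] j ∧ ∀ m < d, s^[m] j < k := by
    intro j hj
    push Not at hj
    have hj' : ∃ m, m < t ∧ k ≤ s^[m] j := hj
    refine ⟨Nat.find hj', (Nat.find_spec hj').1, (Nat.find_spec hj').2, fun m hm => ?_⟩
    have h1 := Nat.find_min hj' hm
    have h2 := (Nat.find_spec hj').1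
    by_contra hc
    exact h1 ⟨by omega, by omega⟩
  -- F1
  have F1 : ∀ i < n, ∀ j < n, ∀ d, (∀ m ≤ d, s^[m] i < k) → (∀ m < d, s^[m] j < k) →
      k ≤ s^[d] j → ∀ v, v ∈ E i → v ∈ E j → J (ψ^[d] v) := by
    intro i hi j hj d h1 h2 h3 v hv1 hv2
    exact hJ _ (h1 d le_rfl) _ h3 (iter_fact hs j hj d h2).1 _
      (iter_mem hs i hi d (fun m hm => h1 m (by omega)) hv1) (iter_mem hs j hj d h2 hv2)
  -- F3
  have F3 : ∀ z, z ∈ E 0 → ∀ i < n, z ∈ E i → ∀ d < t, (∀ m < d, s^[m] i < k) →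
      k ≤ s^[d] i → J (ψ^[d] z) := by
    intro z hz i hi hzi d hd h1 h2
    exact F1 0 hn0 i hi d (fun m hm => htmin m (by omega)) h1 h2 z hz hzi
  have hmem0 : ∀ z, (z = x ∨ z = y) ↔ z ∈ E 0 := by
    intro z
    rw [h0]
    simp
  -- F4
  have F4 : ∀ z, z ∈ E 0 → ∀ d < t, J (ψ^[d] z) →
      ψ^[d + 1] z ∈ E 0 ∧ J (ψ^[t - d - 1] (ψ^[d + 1] z)) := by
    intro z hz d hd hJd
    have h1 : ψ^[d + 1] z ∈ E 0 := by
      rw [← hmem0, Function.iterate_succ_apply']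
      exact hJ2 _ hJd
    have h2 : ψ^[d + 1] z ∈ E (s^[d + 1] 0) :=
      iter_mem hs 0 hn0 (d + 1) (fun m hm => htmin m (by omega)) hz
    have h3 : s^[d + 1] 0 < n :=
      (iter_fact hs 0 hn0 (d + 1) (fun m hm => htmin m (by omega))).1
    refine ⟨h1, F3 _ h1 _ h3 h2 (t - d - 1) (by omega) (fun m hm => ?_) ?_⟩
    · rw [← Function.iterate_add_apply]
      exact htmin _ (by omega)
    · rw [← Function.iterate_add_apply]
      have : t - d - 1 + (d + 1) = t := by omega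
      rw [this]
      exact ht
  have F4' : ∀ z, ∀ d < t, ψ^[t - d - 1] (ψ^[d + 1] z) = ψ^[t] z := by
    intro z d hd
    rw [← Function.iterate_add_apply]
    have : t - d - 1 + (d + 1) = t := by omega
    rw [this]
  -- F5
  have F5 : ∀ z z', z ∈ E 0 → z' ∈ E 0 → J (ψ^[t] z) → J (ψ^[t] z') → z = z' := by
    have hbad : ¬ (J (ψ^[t] x) ∧ J (ψ^[t] y)) := by
      rintro ⟨h1, h2⟩
      have h3 := iter_fact hs 0 hn0 t htmin
      exact hJ3 _ ht h3.1 _ _ (by rw [h3.2.1, h0, Sym2.map_mk]) h1 h2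
    intro z z' hz hz' h1 h2
    rcases (hmem0 z).2 hz with rfl | rfl <;> rcases (hmem0 z').2 hz' with rfl | rfl
    · rfl
    · exact absurd ⟨h1, h2⟩ hbad
    · exact absurd ⟨h2, h1⟩ hbad
    · rfl
  -- F6
  have F6 : ∀ z, z ∈ E 0 → ∀ d < t, J (ψ^[d] z) →
      ψ^[d + 1] z = z ∧ J (ψ^[t - d - 1] z) ∧ J (ψ^[t] z) := by
    intro z hz d hd hJd
    obtain ⟨h1, h2⟩ := F4 z hz d hd hJd
    have h3 : J (ψ^[t] z) := by rw [← F4' z d hd]; exact h2
    obtain ⟨h4, h5⟩ := F4 _ h1 (t - d - 1) (by omega) h2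
    rw [F4' _ _ (by omega)] at h5
    have h6 := F5 _ _ h1 hz h5 h3
    refine ⟨h6, ?_, h3⟩
    rw [h6] at h2
    exact h2
  -- descending injectivity
  have hdesc : ∀ i < n, ∀ j < n, ∀ u v, u ∈ E i → v ∈ E j → ∀ m, (∀ m' < m, s^[m'] i < k) →
      (∀ m' < m, s^[m'] j < k) → ψ^[m] u = ψ^[m] v → u = v := by
    intro i hi j hj u v hu hv m
    induction m with
    | zero => intro _ _ h; simpa using h
    | succ m ih =>
      intro h1 h2 h3
      rw [Function.iterate_succ_apply', Function.iterate_succ_apply'] at h3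
      exact ih (fun m' hm' => h1 m' (by omega)) (fun m' hm' => h2 m' (by omega))
        (hinj _ (h1 m (by omega)) _ (h2 m (by omega)) _ _
          (iter_mem hs i hi m (fun m' hm' => h1 m' (by omega)) hu)
          (iter_mem hs j hj m (fun m' hm' => h2 m' (by omega)) hv) h3)
  -- main
  have main : ∀ i < n, (∀ m < t, s^[m] i < k) → ∀ j < n, (¬ ∀ m < t, s^[m] j < k) →
      ∀ v, v ∈ E i → v ∈ E j → v ∈ E 0 ∧ J (ψ^[t] v) ∧ ψ (ψ^[t] v) = v := by
    intro i hi hiK j hj hjK v hvi hvj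
    obtain ⟨d, hd, hd1, hd2⟩ := hexit j hjK
    have h1 : J (ψ^[d] v) :=
      F1 i hi j hj d (fun m hm => hiK m (by omega)) hd2 hd1 v hvi hvj
    obtain ⟨z, hzdef⟩ : ∃ z, z = ψ^[d + 1] v := ⟨_, rfl⟩
    have hz0 : z ∈ E 0 := by
      rw [← hmem0, hzdef, Function.iterate_succ_apply']
      exact hJ2 _ h1
    have hzi : z ∈ E (s^[d + 1] i) := by
      rw [hzdef]
      exact iter_mem hs i hi (d + 1) (fun m hm => hiK m (by omega)) hvi
    have h2 : J (ψ^[t - d - 1] z) := by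
      refine F3 z hz0 _ (iter_fact hs i hi (d + 1) (fun m hm => hiK m (by omega))).1 hzi
        (t - d - 1) (by omega) (fun m hm => ?_) ?_
      · rw [← Function.iterate_add_apply]
        exact hiK _ (by omega)
      · rw [← Function.iterate_add_apply]
        have : t - d - 1 + (d + 1) = t := by omega
        rw [this]
        exact hK i hi hiK
    obtain ⟨g1, g2, g3⟩ := F6 z hz0 (t - d - 1) (by omega) h2
    have e1 : t - (t - d - 1) - 1 = d := by omega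
    have e2 : t - d - 1 + 1 = t - d := by omega
    rw [e1] at g2
    rw [e2] at g1
    obtain ⟨g4, -, -⟩ := F6 z hz0 d hd g2
    have hvz : v = z := by
      apply hdesc i hi 0 hn0 v z hvi hz0 (d + 1) (fun m hm => hiK m (by omega))
        (fun m hm => htmin m (by omega))
      rw [g4, hzdef]
    rw [hvz]
    refine ⟨hz0, g3, ?_⟩
    have e4 : ψ (ψ^[t] z) = ψ^[t + 1] z := (Function.iterate_succ_apply' ψ t z).symm
    have e3 : t + 1 = (d + 1) + (t - d) := by omega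
    rw [e4, e3, Function.iterate_add_apply, g1, g4]
  obtain ⟨i, hi, j, hj, hiK, hjK, v, hvi, hvj⟩ := hconn (fun i => ∀ m < t, s^[m] i < k)
    ⟨0, hn0, htmin⟩ ⟨k, hkn, fun h => by have := h 0 ht0; simp at this⟩
  obtain ⟨hv0, hvJ, hvt⟩ := main i hi hiK j hj hjK v hvi hvj
  have hzz : ∃ zb, (v = x ∧ zb = y) ∨ (v = y ∧ zb = x) := by
    rcases (hmem0 v).2 hv0 with h | h
    · exact ⟨y, Or.inl ⟨h, rfl⟩⟩
    · exact ⟨x, Or.inr ⟨h, rfl⟩⟩
  obtain ⟨zb, hzb⟩ := hzz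
  refine ⟨t, v, zb, ht0, hzb, htmin, hvJ, hvt, ?_, ?_, ?_⟩
  · intro i hi hiK
    have := iter_fact hs i hi t hiK
    exact ⟨hK i hi hiK, this.1, this.2.1⟩
  · intro i hi hiK j hj hjK u v hu hv h
    exact hdesc i hi j hj u v hu hv t hiK hjK h
  · rintro i hi hiK j hj ⟨w, hwv, hwi, hwj⟩
    by_contra hc
    obtain ⟨hw0, hwJ, -⟩ := main i hi hiK j hj hc w hwi hwj
    exact hwv (F5 _ _ hw0 hv0 hwJ hvJ)

end core

/-- the final orbit argument -/
theorem orbit {U W : Type} [Finite U] {z zb : U} (hz : zb ≠ z) {K Cs : Set (Sym2 U)}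
    (g α β : U → W) (hK0 : s(z, zb) ∈ K)
    (H1 : ∀ e ∈ K, (∃ e' ∈ Cs, Sym2.map g e = Sym2.map α e') ∨
      (∃ e' ∈ Cs, Sym2.map g e = Sym2.map β e'))
    (H2 : Function.Injective α) (H3 : g z = α zb) (H3' : ∀ u, β u ≠ g z)
    (H4 : ∀ u v, α u = β v → u = z) (H5 : s(z, zb) ∉ Cs)
    (H6 : ∀ v, v ≠ z → ∀ e ∈ K, v ∈ e → ∀ e' ∈ Cs, v ∈ e' → e' ∈ K)
    (H7 : ∀ e ∈ K, ∀ e' ∈ K, ∀ u v, u ∈ e → v ∈ e' → g u = g v → u = v) : False := by
  classical
  -- states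
  let Good : U × U → Prop := fun p => s(p.1, p.2) ∈ K ∧ p.2 ≠ z ∧ g p.1 = α p.2 ∧
    ∃ w, g p.2 = α w ∧ s(p.2, w) ∈ Cs
  have start : Good (z, zb) := by
    refine ⟨hK0, hz, H3, ?_⟩
    rcases H1 _ hK0 with ⟨e', he', h⟩ | ⟨e', he', h⟩
    · have hm : α zb ∈ Sym2.map α e' := by
        rw [← h, ← H3]
        simp
      obtain ⟨b, hb, hb2⟩ := Sym2.mem_map.1 hm
      have hb3 : b = zb := H2 hb2
      subst hb3
      obtain ⟨w, hw⟩ := Sym2.mem_iff_exists.1 hb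
      refine ⟨w, ?_, by rw [← hw]; exact he'⟩
      rw [hw, Sym2.map_mk, Sym2.map_mk, H3] at h
      simp only [Sym2.eq_iff] at h
      rcases h with ⟨-, h⟩ | ⟨h1, h2⟩
      · exact h
      · rw [h2, h1]
    · exfalso
      have hm : g z ∈ Sym2.map β e' := by
        rw [← h]
        simp
      obtain ⟨b, -, hb2⟩ := Sym2.mem_map.1 hm
      exact H3' b hb2
  have step : ∀ p : U × U, Good p → ∃ w, Good (p.2, w) := by
    rintro ⟨u, v⟩ ⟨hK, hv, hg, w, hw, hwC⟩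
    simp only at hK hv hg hw hwC
    have hvwK : s(v, w) ∈ K := H6 v hv _ hK (by simp) _ hwC (by simp)
    have hwz : w ≠ z := by
      rintro rfl
      rcases H1 _ hvwK with ⟨e', he', h⟩ | ⟨e', he', h⟩
      · apply H5
        have h' : e' = s(w, zb) := by
          apply Sym2.map.injective H2
          rw [← h, Sym2.map_mk, Sym2.map_mk, hw, H3]
        rw [← h']
        exact he'
      · have hm : g w ∈ Sym2.map β e' := by
          rw [← h]
          simp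
        obtain ⟨b, -, hb2⟩ := Sym2.mem_map.1 hm
        exact H3' b hb2
    refine ⟨w, hvwK, hwz, hw, ?_⟩
    simp only
    rcases H1 _ hvwK with ⟨e', he', h⟩ | ⟨e', he', h⟩
    · have hm : α w ∈ Sym2.map α e' := by
        rw [← h, ← hw]
        simp
      obtain ⟨b, hb, hb2⟩ := Sym2.mem_map.1 hm
      have hb3 : b = w := H2 hb2
      subst hb3
      obtain ⟨w', hw'⟩ := Sym2.mem_iff_exists.1 hb
      refine ⟨w', ?_, by rw [← hw']; exact he'⟩
      rw [hw', Sym2.map_mk, Sym2.map_mk, hw] at h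
      simp only [Sym2.eq_iff] at h
      rcases h with ⟨-, h⟩ | ⟨h1, h2⟩
      · exact h
      · rw [h2, h1]
    · exfalso
      have hm : α w ∈ Sym2.map β e' := by
        rw [← h, ← hw]
        simp
      obtain ⟨b, -, hb2⟩ := Sym2.mem_map.1 hm
      exact hwz (H4 _ _ hb2.symm)
  choose nxt hnxt using step
  let S : ℕ → {p : U × U // Good p} := fun m =>
    Nat.rec ⟨(z, zb), start⟩ (fun _ p => ⟨(p.1.2, nxt p.1 p.2), hnxt p.1 p.2⟩) m
  have hS : ∀ m, (S (m + 1)).1.1 = (S m).1.2 := fun m => rfl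
  have hinj : ∀ m l, m < l → (S m).1.1 ≠ (S l).1.1 := by
    intro m
    induction m with
    | zero =>
      intro l hl h
      obtain ⟨l, rfl⟩ : ∃ l', l = l' + 1 := ⟨l - 1, by omega⟩
      rw [hS] at h
      exact (S l).2.2.1 h.symm
    | succ m ih =>
      intro l hl h
      obtain ⟨l, rfl⟩ : ∃ l', l = l' + 1 := ⟨l - 1, by omega⟩
      apply ih l (by omega)
      rw [hS, hS] at h
      refine H7 _ (S m).2.1 _ (S l).2.1 _ _ (by simp) (by simp) ?_
      rw [(S m).2.2.2.1, (S l).2.2.2.1, h]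
  apply not_injective_infinite_finite (fun m : ℕ => (S m).1.1)
  intro m l h
  rcases lt_trichotomy m l with h1 | h1 | h1
  · exact absurd h (hinj m l h1)
  · exact h1
  · exact absurd h.symm (hinj l m h1)

end Pool.Agent.Sat448
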