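import Mathlib
import Pool.Agent.Sat448.Basic
import Pool.Agent.Sat448.Core

set_option autoImplicit false

namespace Pool.Agent.Sat448

open List

variable {U V W : Type}

/-- The gluing pattern of the necklace. -/
def Glue (ι : ZMod 3 → U → W) (x y : U) : Prop :=
  ∀ i j u v, ι i u = ι j v ↔ (i = j ∧ u = v) ∨ (j = i + 1 ∧ u = y ∧ v = x) ∨
    (i = j + 1 ∧ u = x ∧ v = y)

/-- A connected list of edges. -/
def Conn (C : List (Sym2 U)) : Prop :=
  ∀ P : Sym2 U → Prop, (∃ e ∈ C, P e) → (∃ e ∈ C, ¬ P e) →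
    ∃ e ∈ C, ∃ e' ∈ C, P e ∧ ¬ P e' ∧ Touch e e'

/-- `f` is injective on the vertices of the edges of `C`. -/
def InjV (f : U → W) (C : List (Sym2 U)) : Prop :=
  ∀ e ∈ C, ∀ e' ∈ C, ∀ u v, u ∈ e → v ∈ e' → f u = f v → u = v

theorem Glue.inj {ι : ZMod 3 → U → W} {x y : U} (h : Glue ι x y) (i : ZMod 3) :
    Function.Injective (ι i) := by
  intro u v huv
  rcases (h i i u v).1 huv with h1 | h1 | h1
  · exact h1.2
  · exact absurd h1.1 ((by decide : ∀ i : ZMod 3, i ≠ i + 1) i)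
  · exact absurd h1.1 ((by decide : ∀ i : ZMod 3, i ≠ i + 1) i)

theorem neck_core [Finite U] {x y : U} (hxy : x ≠ y) {C' : List (Sym2 U)}
    (hnd : (s(x, y) :: C').Nodup) (hloop : ∀ e ∈ s(x, y) :: C', ¬ e.IsDiag)
    (hconn : Conn (s(x, y) :: C')) {ι : ZMod 3 → U → W} (hι : Glue ι x y) {f : U → W}
    (hf : InjV f (s(x, y) :: C')) (i0 : ZMod 3) (T R : List (Sym2 U))
    (hTR : s(x, y) :: C' = T ++ R) (hT0 : T ≠ [])
    (hT : T.map (Sym2.map f) <+ C'.map (Sym2.map (ι i0)))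
    (hR : ∀ e ∈ R, (∃ e' ∈ C', Sym2.map f e = Sym2.map (ι (i0 + 1)) e') ∨
      (∃ e' ∈ C', Sym2.map f e = Sym2.map (ι (i0 + 2)) e')) : False := by
  classical
  have z1 : ∀ i : ZMod 3, i ≠ i + 1 := by decide
  have z2 : ∀ i : ZMod 3, i ≠ i + 2 := by decide
  have z3 : ∀ i : ZMod 3, i + 1 ≠ i + 2 := by decide
  have z4 : ∀ i : ZMod 3, i ≠ i + 1 + 1 := by decide
  have z5 : ∀ i : ZMod 3, i = i + 2 + 1 := by decide
  have z6 : ∀ i : ZMod 3, i + 2 = i + 1 + 1 := by decide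
  have z7 : ∀ i : ZMod 3, i + 1 ≠ i + 2 + 1 := by decide
  have iinj := hι.inj
  -- numbers
  obtain ⟨n, hn⟩ : ∃ n, n = (s(x, y) :: C').length := ⟨_, rfl⟩
  obtain ⟨k, hk⟩ : ∃ k, k = T.length := ⟨_, rfl⟩
  obtain ⟨E, hE⟩ : ∃ E : ℕ → Sym2 U, ∀ i, E i = (s(x, y) :: C').getD i s(x, y) := ⟨_, fun _ => rfl⟩
  have hn' : n = C'.length + 1 := by rw [hn, List.length_cons]
  have hlen : n = T.length + R.length := by rw [hn, hTR, List.length_append]
  have hTl : T.length ≤ C'.length := by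
    have := hT.length_le
    simpa using this
  have hk0 : 0 < k := by
    rw [hk]
    exact List.length_pos_iff.2 hT0
  have hkn : k < n := by omega
  have hE0 : E 0 = s(x, y) := by rw [hE]; rfl
  have hEget : ∀ i, ∀ (hi : i < n), (s(x, y) :: C')[i]? = some (E i) := by
    intro i hi
    rw [hE, List.getD_eq_getElem?_getD]
    rw [hn] at hi
    rw [List.getElem?_eq_getElem hi]
    rfl
  have hEmem : ∀ i < n, E i ∈ s(x, y) :: C' := fun i hi =>
    List.mem_of_getElem? (hEget i hi)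
  have hmemE : ∀ e ∈ s(x, y) :: C', ∃ i < n, E i = e := by
    intro e he
    obtain ⟨i, hi⟩ := List.mem_iff_getElem?.1 he
    have hi' : i < n := by
      rw [hn]
      exact (List.getElem?_eq_some_iff.1 hi).1
    refine ⟨i, hi', ?_⟩
    rw [hEget i hi'] at hi
    exact Option.some.inj hi
  have hEinj : ∀ i < n, ∀ j < n, E i = E j → i = j := by
    intro i hi j hj h
    rw [List.nodup_iff_getElem?_ne_getElem?] at hnd
    rcases lt_trichotomy i j with h1 | h1 | h1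
    · exact absurd (by rw [hEget i hi, hEget j hj, h]) (hnd i j h1 (by omega))
    · exact h1
    · exact absurd (by rw [hEget i hi, hEget j hj, h]) (hnd j i h1 (by omega))
  have hTget : ∀ i < k, T[i]? = some (E i) := by
    intro i hi
    rw [← hEget i (by omega), hTR, List.getElem?_append_left (by omega)]
  have hRmem : ∀ i, k ≤ i → i < n → E i ∈ R := by
    intro i hi hin
    have := hEget i hin
    rw [hTR, List.getElem?_append_right (by omega)] at this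
    exact List.mem_of_getElem? this
  -- the index map
  obtain ⟨h, hh⟩ := List.sublist_iff_exists_orderEmbedding_getElem?_eq.1 hT
  have hstep : ∀ i < k, ∃ e', C'[h i]? = some e' ∧ Sym2.map (ι i0) e' = Sym2.map f (E i) := by
    intro i hi
    have h1 := hh i
    rw [List.getElem?_map, List.getElem?_map, hTget i hi, Option.map_some] at h1
    have h2 := Option.map_eq_some_iff.1 h1.symm
    exact h2
  let s : ℕ → ℕ := fun i => h i + 1
  have hsdef : ∀ i, s i = h i + 1 := fun _ => rfl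
  have hile : ∀ i, i ≤ h i := fun i => h.strictMono.le_apply
  let ψ : U → U := fun v => if hv : ∃ b, f v = ι i0 b then hv.choose else v
  have hψ : ∀ v, (∃ b, f v = ι i0 b) → ι i0 (ψ v) = f v := by
    intro v hv
    have : ψ v = hv.choose := dif_pos hv
    rw [this]
    exact hv.choose_spec.symm
  have hrange : ∀ i < k, ∀ v ∈ E i, ∃ b, f v = ι i0 b := by
    intro i hi v hv
    obtain ⟨e', -, he'⟩ := hstep i hi
    have : f v ∈ Sym2.map (ι i0) e' := by
      rw [he']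
      exact Sym2.mem_map.2 ⟨v, hv, rfl⟩
    obtain ⟨b, -, hb⟩ := Sym2.mem_map.1 this
    exact ⟨b, hb.symm⟩
  have hs : ∀ i < k, i < s i ∧ s i < n ∧ E (s i) = Sym2.map ψ (E i) := by
    intro i hi
    obtain ⟨e', he1, he2⟩ := hstep i hi
    have h1 : h i < C'.length := (List.getElem?_eq_some_iff.1 he1).1
    have h2 : s i < n := by rw [hsdef]; omega
    refine ⟨by have := hile i; rw [hsdef]; omega, h2, ?_⟩
    have h3 : (s(x, y) :: C')[s i]? = some e' := by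
      rw [hsdef, List.getElem?_cons_succ]
      exact he1
    have h4 : E (s i) = e' := by
      rw [hEget _ h2] at h3
      exact Option.some.inj h3
    rw [h4]
    apply Sym2.map.injective (iinj i0)
    rw [he2, Sym2.map_map]
    apply Sym2.map_congr
    intro v hv
    exact (hψ v (hrange i hi v hv)).symm
  have hmono : ∀ i j, i ≤ j → j < k → s i ≤ s j := by
    intro i j hij _
    have := h.monotone hij
    rw [hsdef, hsdef]
    omega
  have hinj : ∀ i < k, ∀ j < k, ∀ u v, u ∈ E i → v ∈ E j → ψ u = ψ v → u = v := by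
    intro i hi j hj u v hu hv huv
    apply hf _ (hEmem i (by omega)) _ (hEmem j (by omega)) u v hu hv
    rw [← hψ u (hrange i hi u hu), ← hψ v (hrange j hj v hv), huv]
  have hRf : ∀ j, k ≤ j → j < n → ∀ v ∈ E j, ∃ b, f v = ι (i0 + 1) b ∨ f v = ι (i0 + 2) b := by
    intro j hj hjn v hv
    rcases hR _ (hRmem j hj hjn) with ⟨e', -, he'⟩ | ⟨e', -, he'⟩
    · have : f v ∈ Sym2.map (ι (i0 + 1)) e' := by
        rw [← he']
        exact Sym2.mem_map.2 ⟨v, hv, rfl⟩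
      obtain ⟨b, -, hb⟩ := Sym2.mem_map.1 this
      exact ⟨b, Or.inl hb.symm⟩
    · have : f v ∈ Sym2.map (ι (i0 + 2)) e' := by
        rw [← he']
        exact Sym2.mem_map.2 ⟨v, hv, rfl⟩
      obtain ⟨b, -, hb⟩ := Sym2.mem_map.1 this
      exact ⟨b, Or.inr hb.symm⟩
  have hJ : ∀ i < k, ∀ j, k ≤ j → j < n → ∀ v, v ∈ E i → v ∈ E j →
      (f v = ι i0 x ∨ f v = ι i0 y) := by
    intro i hi j hj hjn v hvi hvj
    obtain ⟨b, hb⟩ := hrange i hi v hvi
    obtain ⟨b', hb' | hb'⟩ := hRf j hj hjn v hvj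
    · rcases (hι _ _ _ _).1 (hb.symm.trans hb') with h1 | h1 | h1
      · exact absurd h1.1 (z1 _)
      · right
        rw [hb, h1.2.1]
      · exact absurd h1.1 (z4 _)
    · rcases (hι _ _ _ _).1 (hb.symm.trans hb') with h1 | h1 | h1
      · exact absurd h1.1 (z2 _)
      · exact absurd h1.1.symm (z3 _)
      · left
        rw [hb, h1.2.1]
  have hJ2 : ∀ v, (f v = ι i0 x ∨ f v = ι i0 y) → ψ v = x ∨ ψ v = y := by
    rintro v (hv | hv)
    · left
      apply iinj i0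
      rw [hψ v ⟨_, hv⟩, hv]
    · right
      apply iinj i0
      rw [hψ v ⟨_, hv⟩, hv]
  have hRx : ∀ j, k ≤ j → j < n → ∀ u v, E j = s(u, v) → (f u = ι i0 x ∨ f u = ι i0 y) →
      (f v = ι i0 x ∨ f v = ι i0 y) → False := by
    intro j hj hjn u v huv hu hv
    have hne : u ≠ v := by
      intro h
      apply hloop _ (hEmem j hjn)
      rw [huv, h]
      simp
    have hfne : f u ≠ f v := fun h => hne (hf _ (hEmem j hjn) _ (hEmem j hjn) u v
      (by rw [huv]; simp) (by rw [huv]; simp) h)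
    -- both junctions are vertices of the image edge
    have hX : ι i0 x ∈ Sym2.map f (E j) ∧ ι i0 y ∈ Sym2.map f (E j) := by
      rw [huv, Sym2.map_mk]
      rcases hu with hu | hu <;> rcases hv with hv | hv
      · exact absurd (hu.trans hv.symm) hfne
      · rw [hu, hv]
        simp
      · rw [hu, hv]
        simp
      · exact absurd (hu.trans hv.symm) hfne
    rcases hR _ (hRmem j hj hjn) with ⟨e', -, he'⟩ | ⟨e', -, he'⟩
    · rw [he'] at hX
      obtain ⟨b, -, hb⟩ := Sym2.mem_map.1 hX.1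
      rcases (hι _ _ _ _).1 hb with h1 | h1 | h1
      · exact z1 _ h1.1.symm
      · exact z4 _ h1.1
      · exact hxy h1.2.2
    · rw [he'] at hX
      obtain ⟨b, -, hb⟩ := Sym2.mem_map.1 hX.2
      rcases (hι _ _ _ _).1 hb with h1 | h1 | h1
      · exact z2 _ h1.1.symm
      · exact hxy h1.2.2.symm
      · exact z3 _ h1.1.symm
  have hconn' : ∀ P : ℕ → Prop, (∃ i < n, P i) → (∃ i < n, ¬ P i) →
      ∃ i < n, ∃ j < n, P i ∧ ¬ P j ∧ ∃ v, v ∈ E i ∧ v ∈ E j := by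
    rintro P ⟨i, hi, hPi⟩ ⟨j, hj, hPj⟩
    obtain ⟨e, -, e', he', ⟨i', hi', he1, hP1⟩, he2, v, hv1, hv2⟩ :=
      hconn (fun e => ∃ i < n, E i = e ∧ P i)
      ⟨E i, hEmem i hi, i, hi, rfl, hPi⟩
      ⟨E j, hEmem j hj, by
        rintro ⟨i', hi', h1, h2⟩
        rw [hEinj _ hi' _ hj h1] at h2
        exact hPj h2⟩
    obtain ⟨j', hj', hje'⟩ := hmemE e' he'
    refine ⟨i', hi', j', hj', hP1, fun hc => he2 ⟨j', hj', hje', hc⟩, v, ?_, ?_⟩
    · rw [he1]; exact hv1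
    · rw [hje']; exact hv2
  obtain ⟨t, z, zb, ht, hz, hmin, hJz, hψz, hA, hB, hC⟩ :=
    core (J := fun v => f v = ι i0 x ∨ f v = ι i0 y) hE0 hk0 hkn hs hmono hinj hJ hJ2
      hRx hconn'
  have hgz : f (ψ^[t] z) = ι i0 z := by
    rw [← hψ (ψ^[t] z) (hJz.elim (fun h => ⟨_, h⟩) (fun h => ⟨_, h⟩)), hψz]
  -- the set `K`
  have hzz : zb ≠ z := by
    rcases hz with ⟨h1, h2⟩ | ⟨h1, h2⟩
    · rw [h1, h2]; exact hxy.symm
    · rw [h1, h2]; exact hxy
  have hedge : s(z, zb) = s(x, y) := by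
    rcases hz with ⟨h1, h2⟩ | ⟨h1, h2⟩
    · rw [h1, h2]
    · rw [h1, h2, Sym2.eq_swap]
  have hn0 : 0 < n := by omega
  have hK0 : s(z, zb) ∈ {e : Sym2 U | ∃ i < n, (∀ m < t, s^[m] i < k) ∧ E i = e} :=
    ⟨0, hn0, hmin, by rw [hE0, hedge]⟩
  have hH1 : ∀ e ∈ {e : Sym2 U | ∃ i < n, (∀ m < t, s^[m] i < k) ∧ E i = e},
      (∃ e' ∈ {e : Sym2 U | e ∈ C'}, Sym2.map (f ∘ ψ^[t]) e = Sym2.map (ι (i0 + 1)) e') ∨
      (∃ e' ∈ {e : Sym2 U | e ∈ C'}, Sym2.map (f ∘ ψ^[t]) e = Sym2.map (ι (i0 + 2)) e') := by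
    rintro e ⟨i, hi, hiK, rfl⟩
    obtain ⟨h1, h2, h3⟩ := hA i hi hiK
    have h4 := hR _ (hRmem _ h1 h2)
    rw [h3, Sym2.map_map] at h4
    exact h4
  have hH5 : s(z, zb) ∉ {e : Sym2 U | e ∈ C'} := by
    rw [hedge]
    exact (List.nodup_cons.1 hnd).1
  have hH6 : ∀ v, v ≠ z → ∀ e ∈ {e : Sym2 U | ∃ i < n, (∀ m < t, s^[m] i < k) ∧ E i = e},
      v ∈ e → ∀ e' ∈ {e : Sym2 U | e ∈ C'}, v ∈ e' →
      e' ∈ {e : Sym2 U | ∃ i < n, (∀ m < t, s^[m] i < k) ∧ E i = e} := by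
    rintro v hv e ⟨i, hi, hiK, rfl⟩ hve e' he' hve'
    obtain ⟨j, hj, rfl⟩ := hmemE e' (List.mem_cons_of_mem _ he')
    exact ⟨j, hj, hC i hi hiK j hj ⟨v, hv, hve, hve'⟩, rfl⟩
  have hH7 : ∀ e ∈ {e : Sym2 U | ∃ i < n, (∀ m < t, s^[m] i < k) ∧ E i = e},
      ∀ e' ∈ {e : Sym2 U | ∃ i < n, (∀ m < t, s^[m] i < k) ∧ E i = e},
      ∀ u v, u ∈ e → v ∈ e' → (f ∘ ψ^[t]) u = (f ∘ ψ^[t]) v → u = v := by
    rintro e ⟨i, hi, hiK, rfl⟩ e' ⟨j, hj, hjK, rfl⟩ u v hu hv huv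
    obtain ⟨a1, a2, a3⟩ := hA i hi hiK
    obtain ⟨b1, b2, b3⟩ := hA j hj hjK
    apply hB i hi hiK j hj hjK u v hu hv
    apply hf _ (hEmem _ a2) _ (hEmem _ b2)
    · rw [a3]
      exact Sym2.mem_map.2 ⟨u, hu, rfl⟩
    · rw [b3]
      exact Sym2.mem_map.2 ⟨v, hv, rfl⟩
    · exact huv
  rcases hz with ⟨h1, h2⟩ | ⟨h1, h2⟩
  · -- z = x, zb = y
    refine orbit (α := ι (i0 + 2)) (β := ι (i0 + 1)) (g := f ∘ ψ^[t]) hzz hK0
      (fun e he => (hH1 e he).symm) (iinj _) ?_ ?_ ?_ hH5 hH6 hH7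
    · show f (ψ^[t] z) = _
      rw [hgz, h1, h2]
      exact (hι _ _ _ _).2 (Or.inr (Or.inr ⟨z5 _, rfl, rfl⟩))
    · intro u hu
      rw [Function.comp_apply, hgz, h1] at hu
      rcases (hι _ _ _ _).1 hu with g1 | g1 | g1
      · exact z1 _ g1.1.symm
      · exact z4 _ g1.1
      · exact hxy g1.2.2
    · intro u v huv
      rcases (hι _ _ _ _).1 huv with g1 | g1 | g1
      · exact absurd g1.1.symm (z3 _)
      · exact absurd g1.1 (z7 _)
      · rw [h1]; exact g1.2.1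
  · -- z = y, zb = x
    refine orbit (α := ι (i0 + 1)) (β := ι (i0 + 2)) (g := f ∘ ψ^[t]) hzz hK0
      hH1 (iinj _) ?_ ?_ ?_ hH5 hH6 hH7
    · show f (ψ^[t] z) = _
      rw [hgz, h1, h2]
      exact (hι _ _ _ _).2 (Or.inr (Or.inl ⟨rfl, rfl, rfl⟩))
    · intro u hu
      rw [Function.comp_apply, hgz, h1] at hu
      rcases (hι _ _ _ _).1 hu with g1 | g1 | g1
      · exact z2 _ g1.1.symm
      · exact hxy g1.2.2.symm
      · exact z3 _ g1.1.symm
    · intro u v huv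
      rcases (hι _ _ _ _).1 huv with g1 | g1 | g1
      · exact absurd g1.1 (z3 _)
      · rw [h1]; exact g1.2.1
      · exact absurd g1.1 (z7 _)

/-- The Necklace Lemma. -/
theorem necklace [Finite U] {x y : U} (hxy : x ≠ y) {C' : List (Sym2 U)}
    (hnd : (s(x, y) :: C').Nodup) (hloop : ∀ e ∈ s(x, y) :: C', ¬ e.IsDiag)
    (hconn : Conn (s(x, y) :: C')) {ι : ZMod 3 → U → W} (hι : Glue ι x y) {f : U → W}
    (hf : InjV f (s(x, y) :: C'))
    (h : (s(x, y) :: C').map (Sym2.map f) <+ C'.map (Sym2.map (ι 0)) ++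
      (C'.map (Sym2.map (ι 1)) ++ C'.map (Sym2.map (ι 2)))) : False := by
  obtain ⟨T₀, S, hS, h0, h'⟩ := sub_split h
  obtain ⟨T₁, T₂, hT, h1, h2⟩ := sub_split h'
  subst hT
  have get : ∀ (T : List (Sym2 U)) (j : ZMod 3),
      T.map (Sym2.map f) <+ C'.map (Sym2.map (ι j)) → ∀ e ∈ T, ∃ e' ∈ C',
        Sym2.map f e = Sym2.map (ι j) e' := by
    intro T j hT e he
    obtain ⟨e', he', h⟩ := List.mem_map.1 (hT.subset (List.mem_map_of_mem (f := Sym2.map f) he))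
    exact ⟨e', he', h.symm⟩
  by_cases e0 : T₀ = []
  · subst e0
    by_cases e1 : T₁ = []
    · subst e1
      refine neck_core hxy hnd hloop hconn hι hf 2 T₂ [] ?_ ?_ h2 (by simp)
      · simpa using hS
      · rintro rfl
        simp at hS
    · refine neck_core hxy hnd hloop hconn hι hf 1 T₁ T₂ ?_ e1 h1 ?_
      · simpa using hS
      · intro e he
        exact Or.inl (get T₂ 2 h2 e he)
  · refine neck_core hxy hnd hloop hconn hι hf 0 T₀ (T₁ ++ T₂) hS e0 h0 ?_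
    intro e he
    rcases List.mem_append.1 he with he | he
    · exact Or.inl (get T₁ 1 h1 e he)
    · exact Or.inr (get T₂ 2 h2 e he)

end Pool.Agent.Sat448
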