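import Mathlib
import Pool.Agent.Sat448.Basic
import Pool.Agent.Sat448.Neck

set_option autoImplicit false

namespace Pool.Agent.Sat448

open List

variable {U V W W' : Type}

/-- `H` has no copy of `e₀ + G` (only the vertices of edges of `G` matter). -/
def Avoids (G : List (Sym2 U)) (H : List (Sym2 W)) : Prop :=
  ∀ (a b : W) (f : U → W), a ≠ b → InjV f G → (∀ e ∈ G, ∀ u ∈ e, f u ≠ a ∧ f u ≠ b) →
    ¬ ((s(a, b) :: G.map (Sym2.map f)) <+ H)

/-- `H` contains a copy of `G` avoiding any given vertex. -/
def Robust (G : List (Sym2 U)) (H : List (Sym2 W)) : Prop :=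
  ∀ w : W, ∃ f : U → W, InjV f G ∧ G.map (Sym2.map f) <+ H ∧ ∀ e ∈ G, ∀ u ∈ e, f u ≠ w

/-- The property which gives bounded saturation. -/
def Star (G : List (Sym2 U)) : Prop :=
  ∃ (W : Type) (_ : Finite W) (_ : Nonempty W) (H : List (Sym2 W)), H.Nodup ∧
    (∀ e ∈ H, ¬ e.IsDiag) ∧ Avoids G H ∧ Robust G H

theorem not_isDiag_map {f : U → W} (hf : Function.Injective f) {e : Sym2 U} (he : ¬ e.IsDiag) :
    ¬ (Sym2.map f e).IsDiag := by
  induction e using Sym2.ind with
  | _ a b =>
    simp only [Sym2.map_mk, Sym2.mk_isDiag_iff] at he ⊢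
    exact fun h => he (hf h)

theorem map_map_sym2 (f : U → V) (g : V → W) (A : List (Sym2 U)) :
    (A.map (Sym2.map f)).map (Sym2.map g) = A.map (Sym2.map (g ∘ f)) := by
  rw [List.map_map]
  congr 1
  rw [Sym2.map_comp]

theorem map_congr_sym2 {f g : U → V} {A : List (Sym2 U)} (h : ∀ e ∈ A, ∀ u ∈ e, f u = g u) :
    A.map (Sym2.map f) = A.map (Sym2.map g) := by
  apply List.map_congr_left
  intro e he
  exact Sym2.map_congr (h e he)

theorem Avoids.map_inj [Nonempty W'] {G : List (Sym2 U)} {H : List (Sym2 W')}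
    (h : Avoids G H) {j : W' → W} (hj : Function.Injective j) :
    Avoids G (H.map (Sym2.map j)) := by
  intro a b f hab hf hav hsub
  obtain ⟨κ, hκ⟩ := hj.hasLeftInverse
  have hκ' : κ ∘ j = id := funext hκ
  have hs2 := hsub.map (Sym2.map κ)
  rw [map_map_sym2, hκ', Sym2.map_id, List.map_id, List.map_cons, map_map_sym2, Sym2.map_mk]
    at hs2
  have hrange : ∀ e ∈ (s(a, b) :: G.map (Sym2.map f)), ∀ v ∈ e, j (κ v) = v := by
    intro e he v hv
    obtain ⟨e', -, rfl⟩ := List.mem_map.1 (hsub.subset he)
    obtain ⟨w, -, rfl⟩ := Sym2.mem_map.1 hv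
    rw [hκ]
  have ha : j (κ a) = a := hrange s(a, b) (by simp) a (by simp)
  have hb : j (κ b) = b := hrange s(a, b) (by simp) b (by simp)
  have hG : ∀ e ∈ G, ∀ u ∈ e, j (κ (f u)) = f u := by
    intro e he u hu
    refine hrange (Sym2.map f e) ?_ _ (Sym2.mem_map.2 ⟨u, hu, rfl⟩)
    exact List.mem_cons_of_mem _ (List.mem_map_of_mem he)
  refine h (κ a) (κ b) (κ ∘ f) ?_ ?_ ?_ hs2
  · intro hh
    apply hab
    rw [← ha, ← hb, hh]
  · intro e he e' he' u v hu hv huv
    apply hf e he e' he' u v hu hv
    rw [← hG e he u hu, ← hG e' he' v hv]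
    exact congrArg j huv
  · intro e he u hu
    obtain ⟨h1, h2⟩ := hav e he u hu
    constructor
    · intro hh
      apply h1
      rw [← hG e he u hu, ← ha]
      exact congrArg j hh
    · intro hh
      apply h2
      rw [← hG e he u hu, ← hb]
      exact congrArg j hh

theorem InjV.mono {f : U → W} {A B : List (Sym2 U)} (h : InjV f B) (hAB : A ⊆ B) : InjV f A :=
  fun e he e' he' => h e (hAB he) e' (hAB he')

theorem star_nil : Star ([] : List (Sym2 U)) := by
  refine ⟨Unit, inferInstance, inferInstance, [], List.nodup_nil, by simp, ?_, ?_⟩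
  · intro a b f _ _ _ h
    simp at h
  · intro w
    exact ⟨fun _ => (), by intro e he; simp at he, by simp, by simp⟩

theorem tri_mem (w : ZMod 3) :
    s(w + 1, w + 2) ∈ ([s(0, 1), s(1, 2), s(2, 0)] : List (Sym2 (ZMod 3))) := by
  revert w
  decide

theorem tri_touch : ∀ e ∈ ([s(0, 1), s(1, 2), s(2, 0)] : List (Sym2 (ZMod 3))),
    ∀ e' ∈ ([s(0, 1), s(1, 2), s(2, 0)] : List (Sym2 (ZMod 3))), Touch e e' := by
  intro e he e' he'
  simp only [List.mem_cons, List.not_mem_nil, or_false] at he he'
  rcases he with rfl | rfl | rfl <;> rcases he' with rfl | rfl | rfl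
  · exact Touch.refl _
  · exact ⟨1, by simp, by simp⟩
  · exact ⟨0, by simp, by simp⟩
  · exact ⟨1, by simp, by simp⟩
  · exact Touch.refl _
  · exact ⟨2, by simp, by simp⟩
  · exact ⟨0, by simp, by simp⟩
  · exact ⟨2, by simp, by simp⟩
  · exact Touch.refl _

theorem star_single {x y : U} (hxy : x ≠ y) : Star [s(x, y)] := by
  classical
  refine ⟨ZMod 3, inferInstance, inferInstance, [s(0, 1), s(1, 2), s(2, 0)], by decide,
    by decide, ?_, ?_⟩
  · intro a b f _ _ hav h
    have h1 := h.subset (List.mem_cons_self (a := s(a, b)))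
    have h2 := h.subset (List.mem_cons_of_mem s(a, b)
      (List.mem_map_of_mem (f := Sym2.map f) (List.mem_singleton_self s(x, y))))
    obtain ⟨v, hv1, hv2⟩ := tri_touch _ h1 _ h2
    obtain ⟨u, hu, rfl⟩ := Sym2.mem_map.1 hv2
    obtain ⟨g1, g2⟩ := hav _ (List.mem_singleton_self _) u hu
    rcases Sym2.mem_iff.1 hv1 with h | h
    · exact g1 h
    · exact g2 h
  · intro w
    refine ⟨fun u => if u = x then w + 1 else w + 2, ?_, ?_, ?_⟩
    · have hne : w + 1 ≠ w + 2 := by
        revert w
        decide
      intro e he e' he' u v hu hv huv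
      rw [List.mem_singleton] at he he'
      subst he he'
      rcases Sym2.mem_iff.1 hu with h | h <;> rcases Sym2.mem_iff.1 hv with h' | h' <;>
        subst h h'
      · rfl
      · simp only [if_true, if_neg hxy.symm] at huv
        exact absurd huv hne
      · simp only [if_true, if_neg hxy.symm] at huv
        exact absurd huv.symm hne
      · rfl
    · simp only [List.map_cons, List.map_nil, Sym2.map_mk, if_true, if_neg hxy.symm]
      exact List.singleton_sublist.2 (tri_mem w)
    · intro e _ u _
      have h1 : w + 1 ≠ w := by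
        revert w
        decide
      have h2 : w + 2 ≠ w := by
        revert w
        decide
      show (if u = x then w + 1 else w + 2) ≠ w
      split_ifs
      · exact h1
      · exact h2

theorem star_append {A B : List (Sym2 U)} (hA : Star A) (hB : Star B) (hd : Dsj A B)
    (hloop : ∀ e ∈ A, ¬ e.IsDiag) : Star (A ++ B) := by
  classical
  obtain ⟨W1, i1, n1, H1, a1, a2, a3, a4⟩ := hA
  obtain ⟨W2, i2, n2, H2, b1, b2, b3, b4⟩ := hB
  have il : Function.Injective (Sum.inl : W1 → W1 ⊕ W2) := Sum.inl_injective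
  have ir : Function.Injective (Sum.inr : W2 → W1 ⊕ W2) := Sum.inr_injective
  refine ⟨W1 ⊕ W2, inferInstance, inferInstance,
    H1.map (Sym2.map Sum.inl) ++ H2.map (Sym2.map Sum.inr), ?_, ?_, ?_, ?_⟩
  · rw [List.nodup_append]
    refine ⟨a1.map (Sym2.map.injective il), b1.map (Sym2.map.injective ir), ?_⟩
    rintro e he e' he' rfl
    obtain ⟨c, -, hc⟩ := List.mem_map.1 he
    obtain ⟨d, -, hd'⟩ := List.mem_map.1 he'
    have h1 : Touch (Sym2.map Sum.inl c) (Sym2.map Sum.inr d : Sym2 (W1 ⊕ W2)) := by
      rw [hc, hd']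
      exact Touch.refl _
    obtain ⟨v, hv1, hv2⟩ := h1
    obtain ⟨p, -, rfl⟩ := Sym2.mem_map.1 hv1
    obtain ⟨q, -, hq⟩ := Sym2.mem_map.1 hv2
    simp at hq
  · intro e he
    rcases List.mem_append.1 he with he | he
    · obtain ⟨c, hc, rfl⟩ := List.mem_map.1 he
      exact not_isDiag_map il (a2 c hc)
    · obtain ⟨c, hc, rfl⟩ := List.mem_map.1 he
      exact not_isDiag_map ir (b2 c hc)
  · intro a b f hab hf hav hsub
    have A1 := a3.map_inj il
    have B1 := b3.map_inj ir
    obtain ⟨l1, l2, hl, h1, h2⟩ := List.sublist_append_iff.1 hsub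
    rw [List.map_append, ← List.cons_append] at hl
    have key : ¬ ((s(a, b) :: A.map (Sym2.map f)) <+ H1.map (Sym2.map Sum.inl)) :=
      A1 a b f hab (hf.mono (by simp)) (fun e he => hav e (by simp [he]))
    rcases List.append_eq_append_iff.1 hl with ⟨c, hc1, hc2⟩ | ⟨c, hc1, hc2⟩
    · apply key
      refine List.Sublist.trans ?_ h1
      rw [hc1]
      exact List.sublist_append_left _ _
    · by_cases hc0 : c = []
      · subst hc0
        apply key
        rw [hc1, List.append_nil]
        exact h1
      · have hlast := List.dropLast_append_getLast hc0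
        have hmem : c.getLast hc0 ∈ s(a, b) :: A.map (Sym2.map f) := by
          rw [hc1]
          exact List.mem_append_right _ (List.getLast_mem hc0)
        have hsub2 : (c.getLast hc0 :: B.map (Sym2.map f)) <+ H2.map (Sym2.map Sum.inr) := by
          refine List.Sublist.trans ?_ h2
          rw [hc2]
          conv_rhs => rw [← hlast]
          rw [List.append_assoc]
          exact List.sublist_append_right _ _
        rcases List.mem_cons.1 hmem with h | h
        · rw [h] at hsub2
          exact B1 a b f hab (hf.mono (by simp)) (fun e he => hav e (by simp [he])) hsub2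
        · obtain ⟨e, he, heq⟩ := List.mem_map.1 h
          rw [← heq] at hsub2
          revert he hsub2
          clear heq
          induction e using Sym2.ind with
          | _ c d =>
            intro hsub2 he
            rw [Sym2.map_mk] at hsub2
            have hcd : c ≠ d := by
              have := hloop _ he
              simpa using this
            refine B1 (f c) (f d) f ?_ (hf.mono (by simp)) ?_ hsub2
            · intro h
              exact hcd (hf _ (List.mem_append_left _ he) _ (List.mem_append_left _ he) c d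
                (Sym2.mem_mk_left c d) (Sym2.mem_mk_right c d) h)
            · intro e' he' u hu
              constructor
              · intro h
                have := hf _ (List.mem_append_right _ he') _ (List.mem_append_left _ he) u c hu
                  (Sym2.mem_mk_left c d) h
                subst this
                exact hd _ he _ he' ⟨u, Sym2.mem_mk_left _ _, hu⟩
              · intro h
                have := hf _ (List.mem_append_right _ he') _ (List.mem_append_left _ he) u d hu
                  (Sym2.mem_mk_right c d) h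
                subst this
                exact hd _ he _ he' ⟨u, Sym2.mem_mk_right _ _, hu⟩
  · -- robustness
    have comb : ∀ (f1 : U → W1) (f2 : U → W2), InjV f1 A → InjV f2 B →
        A.map (Sym2.map f1) <+ H1 → B.map (Sym2.map f2) <+ H2 →
        ∃ f : U → W1 ⊕ W2, InjV f (A ++ B) ∧ (A ++ B).map (Sym2.map f) <+
          H1.map (Sym2.map Sum.inl) ++ H2.map (Sym2.map Sum.inr) ∧
          (∀ e ∈ A, ∀ u ∈ e, f u = Sum.inl (f1 u)) ∧ (∀ e ∈ B, ∀ u ∈ e, f u = Sum.inr (f2 u)) := by
      intro f1 f2 h1 h2 s1 s2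
      have fA : ∀ e ∈ A, ∀ u ∈ e, (if ∃ e ∈ A, u ∈ e then Sum.inl (f1 u) else Sum.inr (f2 u) :
          W1 ⊕ W2) = Sum.inl (f1 u) := by
        intro e he u hu
        rw [if_pos ⟨e, he, hu⟩]
      have fB : ∀ e ∈ B, ∀ u ∈ e, (if ∃ e ∈ A, u ∈ e then Sum.inl (f1 u) else Sum.inr (f2 u) :
          W1 ⊕ W2) = Sum.inr (f2 u) := by
        intro e he u hu
        rw [if_neg]
        rintro ⟨e', he', hu'⟩
        exact hd e' he' e he ⟨u, hu', hu⟩
      refine ⟨fun u => if ∃ e ∈ A, u ∈ e then Sum.inl (f1 u) else Sum.inr (f2 u), ?_, ?_, fA, fB⟩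
      · intro e he e' he' u v hu hv huv
        simp only at huv
        rcases List.mem_append.1 he with he | he <;> rcases List.mem_append.1 he' with he' | he'
        · rw [fA e he u hu, fA e' he' v hv] at huv
          exact h1 e he e' he' u v hu hv (Sum.inl_injective huv)
        · rw [fA e he u hu, fB e' he' v hv] at huv
          simp at huv
        · rw [fB e he u hu, fA e' he' v hv] at huv
          simp at huv
        · rw [fB e he u hu, fB e' he' v hv] at huv
          exact h2 e he e' he' u v hu hv (Sum.inr_injective huv)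
      · rw [List.map_append]
        apply List.Sublist.append
        · rw [map_congr_sym2 (g := Sum.inl ∘ f1) fA, ← map_map_sym2]
          exact s1.map _
        · rw [map_congr_sym2 (g := Sum.inr ∘ f2) fB, ← map_map_sym2]
          exact s2.map _
    intro w
    rcases w with w | w
    · obtain ⟨f1, p1, p2, p3⟩ := a4 w
      obtain ⟨f2, q1, q2, -⟩ := b4 (Classical.choice n2)
      obtain ⟨f, r1, r2, r3, r4⟩ := comb f1 f2 p1 q1 p2 q2
      refine ⟨f, r1, r2, ?_⟩
      intro e he u hu
      rcases List.mem_append.1 he with he | he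
      · rw [r3 e he u hu]
        exact fun h => p3 e he u hu (Sum.inl_injective h)
      · rw [r4 e he u hu]
        simp
    · obtain ⟨f1, p1, p2, -⟩ := a4 (Classical.choice n1)
      obtain ⟨f2, q1, q2, q3⟩ := b4 w
      obtain ⟨f, r1, r2, r3, r4⟩ := comb f1 f2 p1 q1 p2 q2
      refine ⟨f, r1, r2, ?_⟩
      intro e he u hu
      rcases List.mem_append.1 he with he | he
      · rw [r3 e he u hu]
        simp
      · rw [r4 e he u hu]
        exact fun h => q3 e he u hu (Sum.inr_injective h)

/-- extension of an injection on the vertices of edges to an embedding -/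
theorem extend_embedding {U V : Type} [Finite U] [Fintype V] (G : List (Sym2 U)) (f : U → V)
    (a b : V) (hab : a ≠ b) (hf : InjV f G) (hav : ∀ e ∈ G, ∀ u ∈ e, f u ≠ a ∧ f u ≠ b)
    (hcard : Nat.card U + 2 ≤ Fintype.card V) :
    ∃ F : U ⊕ Fin 2 ↪ V, F (Sum.inr 0) = a ∧ F (Sum.inr 1) = b ∧
      ∀ e ∈ G, ∀ u ∈ e, F (Sum.inl u) = f u := by
  classical
  have : Fintype U := Fintype.ofFinite U
  let D : Set (U ⊕ Fin 2) := {p | match p with
    | Sum.inl u => ∃ e ∈ G, u ∈ e
    | Sum.inr _ => True}
  let φ : U ⊕ Fin 2 → V := fun p => match p with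
    | Sum.inl u => f u
    | Sum.inr i => if i = 0 then a else b
  have hinj : Set.InjOn φ D := by
    rintro (u | i) hp (v | j) hq h
    · obtain ⟨e, he, hu⟩ := hp
      obtain ⟨e', he', hv⟩ := hq
      have : u = v := hf e he e' he' u v hu hv h
      rw [this]
    · exfalso
      obtain ⟨e, he, hu⟩ := hp
      have h1 := hav e he u hu
      fin_cases j
      · exact h1.1 h
      · exact h1.2 h
    · exfalso
      obtain ⟨e, he, hu⟩ := hq
      have h1 := hav e he v hu
      fin_cases i
      · exact h1.1 h.symm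
      · exact h1.2 h.symm
    · fin_cases i <;> fin_cases j
      · rfl
      · exact absurd h hab
      · exact absurd h.symm hab
      · rfl
  have hcard2 : Fintype.card (U ⊕ Fin 2) = Nat.card U + 2 := by
    simp [Nat.card_eq_fintype_card]
  obtain ⟨t, ht1, ht2⟩ := Finset.exists_superset_card_eq
    (s := (Finset.univ.filter (fun p => p ∈ D)).image φ) (n := Fintype.card (U ⊕ Fin 2))
    (Finset.card_image_le.trans (Finset.card_le_univ _)) (by rw [hcard2]; exact hcard)
  obtain ⟨g, hg⟩ := Set.MapsTo.exists_equiv_extend_of_card_eq (α := U ⊕ Fin 2) (β := V)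
    (t := t) (s := D) (f := φ) ht2.symm (by
      intro p hp
      exact ht1 (Finset.mem_image.2 ⟨p, by simpa using hp, rfl⟩)) hinj
  refine ⟨⟨fun p => (g p : V), fun p q h => g.injective (Subtype.ext h)⟩, ?_, ?_, ?_⟩
  · exact hg (Sum.inr 0) trivial
  · exact hg (Sum.inr 1) trivial
  · intro e he u hu
    exact hg (Sum.inl u) ⟨e, he, hu⟩

end Pool.Agent.Sat448
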