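import Mathlib
import Pool.Agent.Sat448.Basic
import Pool.Agent.Sat448.Neck
import Pool.Agent.Sat448.Star

set_option autoImplicit false

namespace Pool.Agent.Sat448

open List

variable {U V W W' : Type}

/-- both edges are in `G` and they have a common vertex -/
def Adj' (G : List (Sym2 U)) (a b : Sym2 U) : Prop := a ∈ G ∧ b ∈ G ∧ Touch a b

/-- connected by a path of edges of `G` -/
def Reach (G : List (Sym2 U)) : Sym2 U → Sym2 U → Prop := Relation.ReflTransGen (Adj' G)

theorem Reach.symm {G : List (Sym2 U)} {a b : Sym2 U} (h : Reach G a b) : Reach G b a := by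
  unfold Reach at h ⊢
  induction h with
  | refl => exact Relation.ReflTransGen.refl
  | tail h1 h2 ih => exact (Relation.ReflTransGen.single ⟨h2.2.1, h2.1, h2.2.2.symm⟩).trans ih

theorem Reach.trans {G : List (Sym2 U)} {a b c : Sym2 U} (h : Reach G a b) (h' : Reach G b c) :
    Reach G a c := Relation.ReflTransGen.trans h h'

theorem Reach.step {G : List (Sym2 U)} {a b : Sym2 U} (ha : a ∈ G) (hb : b ∈ G)
    (h : Touch a b) : Reach G a b := Relation.ReflTransGen.single ⟨ha, hb, h⟩

open Classical in
/-- the component of an edge -/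
noncomputable def comp (G : List (Sym2 U)) (e : Sym2 U) : List (Sym2 U) :=
  G.filter (fun e' => decide (Reach G e e'))

theorem mem_comp {G : List (Sym2 U)} {e e' : Sym2 U} :
    e' ∈ comp G e ↔ e' ∈ G ∧ Reach G e e' := by
  simp [comp]

theorem comp_sub (G : List (Sym2 U)) (e : Sym2 U) : comp G e <+ G := List.filter_sublist

theorem self_mem_comp {G : List (Sym2 U)} {e : Sym2 U} (h : e ∈ G) : e ∈ comp G e :=
  mem_comp.2 ⟨h, Relation.ReflTransGen.refl⟩

theorem comp_eq {G : List (Sym2 U)} {e e' : Sym2 U} (h : Reach G e e') :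
    comp G e = comp G e' := by
  unfold comp
  apply List.filter_congr
  intro x _
  rw [decide_eq_decide]
  exact ⟨fun h' => h.symm.trans h', fun h' => h.trans h'⟩

theorem comp_closed {G : List (Sym2 U)} {e a b : Sym2 U} (ha : a ∈ comp G e) (hb : b ∈ G)
    (h : Touch a b) : b ∈ comp G e := by
  rw [mem_comp] at ha ⊢
  exact ⟨hb, ha.2.trans (Reach.step ha.1 hb h)⟩

/-- induction over a component -/
theorem comp_induction {G : List (Sym2 U)} {e : Sym2 U} (P : Sym2 U → Prop) (h0 : P e)
    (hs : ∀ a ∈ comp G e, ∀ b ∈ comp G e, P a → Touch a b → P b) (he : e ∈ G) :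
    ∀ e' ∈ comp G e, P e' := by
  intro e' he'
  have h := (mem_comp.1 he').2
  have key : ∀ b, Reach G e b → b ∈ comp G e ∧ P b := by
    intro b hb
    induction hb with
    | refl => exact ⟨self_mem_comp he, h0⟩
    | tail h1 h2 ih =>
      have hmem := comp_closed ih.1 h2.2.1 h2.2.2
      exact ⟨hmem, hs _ ih.1 _ hmem ih.2 h2.2.2⟩
  exact (key e' h).2

theorem comp_conn {G : List (Sym2 U)} {e : Sym2 U} : Conn (comp G e) := by
  rintro P ⟨a, ha, hPa⟩ ⟨b, hb, hPb⟩
  by_contra hc
  push Not at hc
  have hab : comp G e = comp G a := comp_eq (mem_comp.1 ha).2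
  rw [hab] at hb hc
  exact hPb (comp_induction P hPa (fun c hc' d hd hPc ht => by
    by_contra hPd
    exact hc c hc' d hd hPc hPd ht) (mem_comp.1 ha).1 b hb)

/-- embeddability up to isolated vertices -/
def Emb (A : List (Sym2 U)) (B : List (Sym2 W)) : Prop :=
  ∃ f : U → W, InjV f A ∧ A.map (Sym2.map f) <+ B

/-- in a list without repetitions, sublists are determined by their elements -/
theorem filter_mem_eq {α : Type} [DecidableEq α] {l E : List α} (h : l <+ E) (hE : E.Nodup) :
    E.filter (fun a => decide (a ∈ l)) = l := by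
  induction h with
  | slnil => rfl
  | @cons l E a h ih =>
    rw [List.nodup_cons] at hE
    have ha : a ∉ l := fun hh => hE.1 (h.subset hh)
    rw [List.filter_cons_of_neg (by simpa using ha)]
    exact ih hE.2
  | @cons_cons l E a h ih =>
    rw [List.nodup_cons] at hE
    rw [List.filter_cons_of_pos (by simp)]
    congr 1
    rw [← ih hE.2] 
    conv_rhs => rw [ih hE.2]
    conv_rhs => rw [← ih hE.2]
    apply List.filter_congr
    intro b hb
    have : b ≠ a := fun hh => hE.1 (hh ▸ hb)
    rw [ih hE.2]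
    simp [this]

theorem sub_of_subset {α : Type} {l L E : List α} (hE : E.Nodup) (hl : l <+ E)
    (hL : L <+ E) (h : l ⊆ L) : l <+ L := by
  classical
  rw [← filter_mem_eq hl hE, ← filter_mem_eq hL hE]
  apply List.monotone_filter_right
  intro a ha
  simp only [decide_eq_true_eq] at ha ⊢
  exact h ha

/-- three consecutive copies -/
def seq3 (ι : ZMod 3 → U → W) (A : List (Sym2 U)) : List (Sym2 W) :=
  A.map (Sym2.map (ι 0)) ++ (A.map (Sym2.map (ι 1)) ++ A.map (Sym2.map (ι 2)))

theorem mem_seq3 {ι : ZMod 3 → U → W} {A : List (Sym2 U)} {e : Sym2 W} :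
    e ∈ seq3 ι A ↔ ∃ j, ∃ r ∈ A, Sym2.map (ι j) r = e := by
  simp only [seq3, List.mem_append, List.mem_map]
  constructor
  · rintro (⟨r, hr, h⟩ | ⟨r, hr, h⟩ | ⟨r, hr, h⟩)
    · exact ⟨0, r, hr, h⟩
    · exact ⟨1, r, hr, h⟩
    · exact ⟨2, r, hr, h⟩
  · rintro ⟨j, r, hr, h⟩
    have : j = 0 ∨ j = 1 ∨ j = 2 := by
      clear h
      revert j
      decide
    rcases this with rfl | rfl | rfl
    · exact Or.inl ⟨r, hr, h⟩
    · exact Or.inr (Or.inl ⟨r, hr, h⟩)
    · exact Or.inr (Or.inr ⟨r, hr, h⟩)

theorem seq3_sub {ι : ZMod 3 → U → W} {A B : List (Sym2 U)} (h : A <+ B) :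
    seq3 ι A <+ seq3 ι B :=
  (h.map _).append ((h.map _).append (h.map _))

theorem map_sub_seq3 (ι : ZMod 3 → U → W) (A : List (Sym2 U)) (j : ZMod 3) :
    A.map (Sym2.map (ι j)) <+ seq3 ι A := by
  have : j = 0 ∨ j = 1 ∨ j = 2 := by
    revert j
    decide
  rcases this with rfl | rfl | rfl
  · exact List.sublist_append_left _ _
  · exact (List.sublist_append_left _ _).trans (List.sublist_append_right _ _)
  · exact (List.sublist_append_right _ _).trans (List.sublist_append_right _ _)

theorem map_sub_mix (ι : ZMod 3 → U → W) (A B : List (Sym2 U)) (j : ZMod 3) :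
    (A ++ B).map (Sym2.map (ι j)) <+ mix (ι 0) (ι 1) (ι 2) A B := by
  have : j = 0 ∨ j = 1 ∨ j = 2 := by
    revert j
    decide
  unfold mix
  rw [List.map_append]
  rcases this with rfl | rfl | rfl
  · apply List.Sublist.append (List.Sublist.refl _)
    exact ((List.sublist_append_right _ _).trans (List.sublist_append_right _ _)).trans
      (List.sublist_append_right _ _)
  · refine List.Sublist.trans ?_ (List.sublist_append_right _ _)
    apply List.Sublist.append (List.Sublist.refl _)
    exact (List.sublist_append_left _ _).trans (List.sublist_append_right _ _)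
  · refine List.Sublist.trans ?_ (List.sublist_append_right _ _)
    refine List.Sublist.trans ?_ (List.sublist_append_right _ _)
    rw [List.map_append]
    exact List.sublist_append_left _ _

theorem map_sub_mixs (ι : ZMod 3 → U → W) (Fs : List (List (Sym2 U) × List (Sym2 U)))
    (j : ZMod 3) : (joins Fs).map (Sym2.map (ι j)) <+ mixs (ι 0) (ι 1) (ι 2) Fs := by
  induction Fs with
  | nil => simp [joins, mixs]
  | cons s Fs ih =>
    have h1 : joins (s :: Fs) = (s.1 ++ s.2) ++ joins Fs := by simp [joins]
    have h2 : mixs (ι 0) (ι 1) (ι 2) (s :: Fs) =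
        mix (ι 0) (ι 1) (ι 2) s.1 s.2 ++ mixs (ι 0) (ι 1) (ι 2) Fs := by simp [mixs]
    rw [h1, h2, List.map_append]
    exact (map_sub_mix ι s.1 s.2 j).append ih

theorem count_mix [DecidableEq W] (p q r : U → W) (A B : List (Sym2 U)) (e : Sym2 W) :
    (mix p q r A B).count e = ((A ++ B).map (Sym2.map p)).count e +
      (((A ++ B).map (Sym2.map q)).count e + ((A ++ B).map (Sym2.map r)).count e) := by
  simp only [mix, List.count_append, List.map_append]
  omega

theorem count_mixs [DecidableEq W] (p q r : U → W) (Fs : List (List (Sym2 U) × List (Sym2 U)))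
    (e : Sym2 W) :
    (mixs p q r Fs).count e = ((joins Fs).map (Sym2.map p)).count e +
      (((joins Fs).map (Sym2.map q)).count e + ((joins Fs).map (Sym2.map r)).count e) := by
  induction Fs with
  | nil => simp [joins, mixs]
  | cons s Fs ih =>
    have h1 : joins (s :: Fs) = (s.1 ++ s.2) ++ joins Fs := by simp [joins]
    have h2 : mixs p q r (s :: Fs) = mix p q r s.1 s.2 ++ mixs p q r Fs := by simp [mixs]
    rw [h1, h2, List.count_append, count_mix, ih]
    simp only [List.map_append, List.count_append]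
    omega

theorem mix_sub (p q r : U → W) {A B A' B' : List (Sym2 U)} (hA : A <+ A') (hB : B <+ B') :
    mix p q r A B <+ mix p q r A' B' :=
  (hA.map _).append ((hA.map _).append (((hA.append hB).map _).append
    ((hB.map _).append (hB.map _))))

/-- filtering the two parts of a segment -/
def filt (p : Sym2 U → Bool) (s : List (Sym2 U) × List (Sym2 U)) :
    List (Sym2 U) × List (Sym2 U) := (s.1.filter p, s.2.filter p)

theorem mixs_filt_sub (p q r : U → W) (c : Sym2 U → Bool)
    (Ss : List (List (Sym2 U) × List (Sym2 U))) :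
    mixs p q r (Ss.map (filt c)) <+ mixs p q r Ss := by
  induction Ss with
  | nil => simp [mixs]
  | cons s Ss ih =>
    have h1 : mixs p q r (s :: Ss) = mix p q r s.1 s.2 ++ mixs p q r Ss := by simp [mixs]
    have h2 : mixs p q r ((s :: Ss).map (filt c)) =
        mix p q r (s.1.filter c) (s.2.filter c) ++ mixs p q r (Ss.map (filt c)) := by
      simp [mixs, filt]
    rw [h1, h2]
    exact (mix_sub p q r List.filter_sublist List.filter_sublist).append ih

theorem lift_split (p : Sym2 U → Bool) (hs : List (List (Sym2 U) × List (Sym2 U))) :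
    ∀ R : List (Sym2 U), R.filter p = joins hs →
      ∃ Ss Z, R = joins Ss ++ Z ∧ Z.filter p = [] ∧ Ss.map (filt p) = hs := by
  induction hs with
  | nil =>
    intro R hR
    exact ⟨[], R, by simp [joins], by simpa [joins] using hR, rfl⟩
  | cons s hs ih =>
    intro R hR
    have h1 : joins (s :: hs) = s.1 ++ (s.2 ++ joins hs) := by simp [joins]
    rw [h1] at hR
    obtain ⟨A, R1, hR1, hA, hR1'⟩ := List.filter_eq_append_iff.1 hR
    obtain ⟨B, R2, hR2, hB, hR2'⟩ := List.filter_eq_append_iff.1 hR1'
    obtain ⟨Ss, Z, hZ1, hZ2, hZ3⟩ := ih R2 hR2'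
    refine ⟨(A, B) :: Ss, Z, ?_, hZ2, ?_⟩
    · rw [hR1, hR2, hZ1]
      simp [joins]
    · rw [List.map_cons, hZ3]
      congr 1
      simp only [filt, hA, hB]

end Pool.Agent.Sat448
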