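import Mathlib
import Pool.Agent.Sat448.Basic
import Pool.Agent.Sat448.Neck
import Pool.Agent.Sat448.Star
import Pool.Agent.Sat448.Comp

set_option autoImplicit false

namespace Pool.Agent.Sat448

open List

variable {U V W W' : Type}

theorem Glue.edge {ι : ZMod 3 → U → W} {x y : U} (h : Glue ι x y) {i j : ZMod 3}
    {r r' : Sym2 U} (hr : ¬ r.IsDiag) (h' : Sym2.map (ι i) r = Sym2.map (ι j) r') :
    i = j ∧ r = r' := by
  by_cases hij : i = j
  · subst hij
    exact ⟨rfl, Sym2.map.injective (h.inj i) h'⟩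
  exfalso
  have key : ∀ a ∈ r, (j = i + 1 ∧ a = y) ∨ (i = j + 1 ∧ a = x) := by
    intro a ha
    have : ι i a ∈ Sym2.map (ι j) r' := by
      rw [← h']
      exact Sym2.mem_map.2 ⟨a, ha, rfl⟩
    obtain ⟨c, -, hc⟩ := Sym2.mem_map.1 this
    rcases (h i j a c).1 hc.symm with h1 | h1 | h1
    · exact absurd h1.1 hij
    · exact Or.inl ⟨h1.1, h1.2.1⟩
    · exact Or.inr ⟨h1.1, h1.2.1⟩
  have h2 : ¬ (j = i + 1 ∧ i = j + 1) := by
    clear key h' hij
    revert i j
    decide
  induction r using Sym2.ind with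
  | _ a b =>
    apply hr
    rw [Sym2.mk_isDiag_iff]
    rcases key a (by simp) with h3 | h3 <;> rcases key b (by simp) with h4 | h4
    · rw [h3.2, h4.2]
    · exact absurd ⟨h3.1, h4.1⟩ h2
    · exact absurd ⟨h4.1, h3.1⟩ h2
    · rw [h3.2, h4.2]

theorem Glue.touch {ι : ZMod 3 → U → W} {x y : U} (h : Glue ι x y) {i j : ZMod 3}
    {r r' : Sym2 U} (h' : Touch (Sym2.map (ι i) r) (Sym2.map (ι j) r')) :
    (i = j ∧ Touch r r') ∨ (Touch s(x, y) r ∧ Touch s(x, y) r') := by
  obtain ⟨v, h1, h2⟩ := h'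
  obtain ⟨a, ha, rfl⟩ := Sym2.mem_map.1 h1
  obtain ⟨b, hb, hab⟩ := Sym2.mem_map.1 h2
  rcases (h i j a b).1 hab.symm with h3 | h3 | h3
  · left
    exact ⟨h3.1, a, ha, by rw [h3.2]; exact hb⟩
  · right
    exact ⟨⟨a, by rw [h3.2.1]; simp, ha⟩, ⟨b, by rw [h3.2.2]; simp, hb⟩⟩
  · right
    exact ⟨⟨a, by rw [h3.2.1]; simp, ha⟩, ⟨b, by rw [h3.2.2]; simp, hb⟩⟩

/-- the component `comp G e` does not embed into the necklace -/
def Hv (ι : ZMod 3 → U → W) (G C' : List (Sym2 U)) (e : Sym2 U) : Prop :=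
  ¬ Emb (comp G e) (seq3 ι C')

/-- where an embedding sends the heavy edges -/
theorem embed_heavy {x y : U} {G G' C' : List (Sym2 U)} {ι : ZMod 3 → U → W}
    (hG : G = s(x, y) :: G') (hι : Glue ι x y) [Nonempty U]
    (hC' : ∀ e, e ∈ C' ↔ e ∈ G' ∧ e ∈ comp G s(x, y))
    {E' : List (Sym2 W)} (hE : E'.Nodup)
    (hE1 : ∀ e ∈ E', ∃ j, ∃ r ∈ G', Sym2.map (ι j) r = e)
    (hE2 : ∀ j, G'.map (Sym2.map (ι j)) <+ E')
    (hE3 : seq3 ι C' <+ E')
    {f : U → W} (hf : InjV f G)
    (hsub : G.map (Sym2.map f) <+ E') :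
    ∀ e ∈ G, Hv ι G C' e →
      ∃ j, ∃ r ∈ G', r ∉ comp G s(x, y) ∧ Hv ι G C' r ∧
        Sym2.map (ι j) r = Sym2.map f e := by
  intro e he hHe
  have hgG : s(x, y) ∈ G := by rw [hG]; exact List.mem_cons_self
  have hG'G : ∀ r ∈ G', r ∈ G := fun r hr => by rw [hG]; exact List.mem_cons_of_mem _ hr
  have img : ∀ e ∈ G, ∃ j, ∃ r ∈ G', Sym2.map (ι j) r = Sym2.map f e := fun e he =>
    hE1 _ (hsub.subset (List.mem_map_of_mem he))
  obtain ⟨j, r, hr, hjr⟩ := img e he
  by_cases hrC : r ∈ comp G s(x, y)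
  · -- everything goes to the necklace
    exfalso
    have key := comp_induction (G := G) (e := e)
      (fun b => ∃ j, ∃ r ∈ C', Sym2.map (ι j) r = Sym2.map f b)
      ⟨j, r, (hC' r).2 ⟨hr, hrC⟩, hjr⟩ (by
        rintro a ha b hb ⟨i, r1, hr1, h1⟩ hab
        obtain ⟨i', r2, hr2, h2⟩ := img b (mem_comp.1 hb).1
        refine ⟨i', r2, (hC' r2).2 ⟨hr2, ?_⟩, h2⟩
        have ht : Touch (Sym2.map (ι i) r1) (Sym2.map (ι i') r2) := by
          rw [h1, h2]
          exact hab.map f
        rcases hι.touch ht with h3 | h3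
        · exact comp_closed ((hC' r1).1 hr1).2 (hG'G _ hr2) h3.2
        · exact comp_closed (self_mem_comp hgG) (hG'G _ hr2) h3.2) he
    apply hHe
    refine ⟨f, hf.mono (comp_sub G e).subset, ?_⟩
    apply sub_of_subset hE (((comp_sub G e).map _).trans hsub) hE3
    intro b hb
    obtain ⟨c, hc, rfl⟩ := List.mem_map.1 hb
    obtain ⟨i, r1, hr1, h1⟩ := key c hc
    exact mem_seq3.2 ⟨i, r1, hr1, h1⟩
  · -- everything goes to the copy `j` of the component of `r`
    refine ⟨j, r, hr, hrC, ?_, hjr⟩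
    have hrG := hG'G r hr
    have nC : ∀ r' ∈ comp G r, r' ∉ comp G s(x, y) := by
      intro r' h1 h2
      apply hrC
      rw [mem_comp] at h1 h2 ⊢
      exact ⟨hrG, h2.2.trans h1.2.symm⟩
    have nT : ∀ r' ∈ comp G r, ¬ Touch s(x, y) r' := by
      intro r' h1 h2
      exact nC r' h1 (comp_closed (self_mem_comp hgG) (mem_comp.1 h1).1 h2)
    have key := comp_induction (G := G) (e := e)
      (fun b => ∃ r' ∈ comp G r, Sym2.map (ι j) r' = Sym2.map f b)
      ⟨r, self_mem_comp hrG, hjr⟩ (by
        rintro a ha b hb ⟨r1, hr1, h1⟩ hab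
        obtain ⟨i', r2, hr2, h2⟩ := img b (mem_comp.1 hb).1
        have ht : Touch (Sym2.map (ι j) r1) (Sym2.map (ι i') r2) := by
          rw [h1, h2]
          exact hab.map f
        rcases hι.touch ht with h3 | h3
        · obtain ⟨h4, h5⟩ := h3
          subst h4
          exact ⟨r2, comp_closed hr1 (hG'G _ hr2) h5, h2⟩
        · exact absurd h3.1 (nT r1 hr1)) he
    intro hemb
    obtain ⟨g, hg1, hg2⟩ := hemb
    obtain ⟨κ, hκ⟩ := (hι.inj j).hasLeftInverse
    apply hHe
    have hcG' : comp G r <+ G' := by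
      have h1 := comp_sub G r
      nth_rw 2 [hG] at h1
      rcases List.sublist_cons_iff.1 h1 with h2 | ⟨l, h2, h3⟩
      · exact h2
      · exfalso
        apply nT s(x, y) _ (Touch.refl _)
        rw [h2]
        exact List.mem_cons_self
    have hsub2 : (comp G e).map (Sym2.map f) <+ (comp G r).map (Sym2.map (ι j)) := by
      apply sub_of_subset hE (((comp_sub G e).map _).trans hsub) ((hcG'.map _).trans (hE2 j))
      intro b hb
      obtain ⟨c, hc, rfl⟩ := List.mem_map.1 hb
      obtain ⟨r', hr', h1⟩ := key c hc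
      rw [← h1]
      exact List.mem_map_of_mem hr'
    refine ⟨g ∘ κ ∘ f, ?_, ?_⟩
    · intro e1 he1 e2 he2 u v hu hv huv
      obtain ⟨r1, hr1, h1⟩ := key e1 he1
      obtain ⟨r2, hr2, h2⟩ := key e2 he2
      have m1 : f u ∈ Sym2.map (ι j) r1 := by
        rw [h1]
        exact Sym2.mem_map.2 ⟨u, hu, rfl⟩
      have m2 : f v ∈ Sym2.map (ι j) r2 := by
        rw [h2]
        exact Sym2.mem_map.2 ⟨v, hv, rfl⟩
      obtain ⟨b, hb, hb2⟩ := Sym2.mem_map.1 m1
      obtain ⟨c, hc, hc2⟩ := Sym2.mem_map.1 m2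
      simp only [Function.comp_apply] at huv
      rw [← hb2, ← hc2, hκ, hκ] at huv
      have hbc := hg1 r1 hr1 r2 hr2 b c hb hc huv
      apply hf e1 (mem_comp.1 he1).1 e2 (mem_comp.1 he2).1 u v hu hv
      rw [← hb2, ← hc2, hbc]
    · have h1 := hsub2.map (Sym2.map (g ∘ κ))
      rw [map_map_sym2, map_map_sym2] at h1
      have h2 : (g ∘ κ) ∘ ι j = g := by
        funext u
        simp only [Function.comp_apply]
        rw [hκ]
      rw [h2] at h1
      exact h1.trans hg2

theorem exists_glue {x y : U} (hxy : x ≠ y) [Finite U] :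
    ∃ (W : Type) (_ : Finite W) (_ : Nonempty W) (ι : ZMod 3 → U → W), Glue ι x y ∧
      ∀ w : W, ∃ j, ∀ u, ι j u ≠ w := by
  classical
  have z1 : ∀ i : ZMod 3, i + 1 ≠ i := by decide
  have z2 : ∀ i : ZMod 3, i + 1 + 1 ≠ i := by decide
  refine ⟨ZMod 3 ⊕ (ZMod 3 × U), inferInstance, inferInstance,
    fun i u => if u = x then Sum.inl i else if u = y then Sum.inl (i + 1) else Sum.inr (i, u),
    ?_, ?_⟩
  · intro i j u v
    by_cases hux : u = x
    · by_cases hvx : v = x
      · simp only [hux, hvx, if_true, Sum.inl.injEq, hxy, and_true, false_and, and_false, or_false]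
      · by_cases hvy : v = y
        · simp only [hux, hvy, hxy, hxy.symm, if_true, if_false, Sum.inl.injEq, and_true, false_and,
            and_false, or_false, false_or]
        · simp only [hux, hvx, hvy, if_true, if_false, and_false, or_false, false_iff,
            reduceCtorEq, false_or]
          rintro ⟨-, h⟩
          exact hvx h.symm
    · by_cases huy : u = y
      · by_cases hvx : v = x
        · simp only [huy, hvx, hxy, hxy.symm, if_true, if_false, Sum.inl.injEq, and_true,
            false_and, and_false, or_false, false_or]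
          exact eq_comm
        · by_cases hvy : v = y
          · simp only [huy, hvy, hxy.symm, if_true, if_false, Sum.inl.injEq, add_left_inj,
              and_true, false_and, and_false, or_false]
          · simp only [huy, hvx, hvy, hxy.symm, if_true, if_false, and_false, or_false, false_iff,
              reduceCtorEq, false_or, false_and]
            rintro ⟨-, h⟩
            exact hvy h.symm
      · by_cases hvx : v = x
        · simp only [hux, huy, hvx, if_true, if_false, and_false, or_false, 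
            reduceCtorEq, false_and]
        · by_cases hvy : v = y
          · simp only [hux, huy, hvy, hxy.symm, if_true, if_false, and_false, or_false, 
              reduceCtorEq, false_and]
          · simp only [hux, huy, hvx, hvy, if_false, and_false, or_false, false_and,
              Sum.inr.injEq, Prod.mk.injEq]
  · rintro (i | ⟨i, w⟩)
    · refine ⟨i + 1, fun u => ?_⟩
      simp only
      split_ifs
      · simpa using z1 i
      · simpa using z2 i
      · simp
    · refine ⟨i + 1, fun u => ?_⟩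
      simp only
      split_ifs
      · simp
      · simp
      · simp

end Pool.Agent.Sat448
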