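import Mathlib
import Pool.Agent.Sat448.Basic
import Pool.Agent.Sat448.Neck
import Pool.Agent.Sat448.Star
import Pool.Agent.Sat448.Comp
import Pool.Agent.Sat448.Main

set_option autoImplicit false

namespace Pool.Agent.Sat448

open List

variable {U V W W' : Type}

theorem map_seq3_nodup {x y : U} {ι : ZMod 3 → U → W} (hι : Glue ι x y) {G : List (Sym2 U)}
    (hnd : G.Nodup) (hloop : ∀ e ∈ G, ¬ e.IsDiag) : (seq3 ι G).Nodup := by
  have h1 : ∀ j, (G.map (Sym2.map (ι j))).Nodup := fun j =>
    hnd.map (Sym2.map.injective (hι.inj j))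
  have h2 : ∀ i j, i ≠ j → ∀ a ∈ G.map (Sym2.map (ι i)), ∀ b ∈ G.map (Sym2.map (ι j)), a ≠ b := by
    rintro i j hij a ha b hb rfl
    obtain ⟨r, hr, h⟩ := List.mem_map.1 ha
    obtain ⟨r', hr', h'⟩ := List.mem_map.1 hb
    exact hij (hι.edge (hloop r hr) (h.trans h'.symm)).1
  unfold seq3
  rw [List.nodup_append, List.nodup_append]
  refine ⟨h1 0, ⟨h1 1, h1 2, h2 1 2 (by decide)⟩, ?_⟩
  intro a ha b hb
  rcases List.mem_append.1 hb with hb | hb
  · exact h2 0 1 (by decide) a ha b hb
  · exact h2 0 2 (by decide) a ha b hb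

theorem star_main [Finite U] {x y : U} (hxy : x ≠ y) {G G' : List (Sym2 U)}
    (hG : G = s(x, y) :: G') (hnd : G.Nodup) (hloop : ∀ e ∈ G, ¬ e.IsDiag)
    (hC : ∃ r ∈ G', Touch s(x, y) r) : Star G := by
  classical
  obtain ⟨W, hW1, hW2, ι, hι, hmiss⟩ := exists_glue hxy
  have : Nonempty U := ⟨x⟩
  have hgG : s(x, y) ∈ G := by rw [hG]; exact List.mem_cons_self
  have hG'G : ∀ r ∈ G', r ∈ G := fun r hr => by rw [hG]; exact List.mem_cons_of_mem _ hr
  have hnd' : s(x, y) ∉ G' ∧ G'.Nodup := by
    rw [hG] at hnd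
    exact List.nodup_cons.1 hnd
  -- the component of the first edge
  obtain ⟨C', hC'def⟩ : ∃ C', C' = G'.filter (fun e' => decide (Reach G s(x, y) e')) := ⟨_, rfl⟩
  have hcomp : comp G s(x, y) = s(x, y) :: C' := by
    have h1 : ∀ p : Sym2 U → Bool, G.filter p = (s(x, y) :: G').filter p := fun p => by rw [hG]
    unfold comp
    rw [h1, List.filter_cons_of_pos, hC'def]
    simp only [decide_eq_true_eq]
    exact Relation.ReflTransGen.refl
  have hC' : ∀ e, e ∈ C' ↔ e ∈ G' ∧ e ∈ comp G s(x, y) := by
    intro e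
    rw [mem_comp, hC'def]
    simp only [List.mem_filter, decide_eq_true_eq]
    exact ⟨fun h => ⟨h.1, hG'G e h.1, h.2⟩, fun h => ⟨h.1, h.2.2⟩⟩
  obtain ⟨r₀, hr₀, hr₀t⟩ := hC
  have hr₀C : r₀ ∈ C' := (hC' r₀).2 ⟨hr₀, comp_closed (self_mem_comp hgG) (hG'G _ hr₀) hr₀t⟩
  -- heaviness
  obtain ⟨Hb, hHb⟩ : ∃ Hb : Sym2 U → Bool, ∀ e, Hb e = true ↔ Hv ι G C' e :=
    ⟨fun e => decide (Hv ι G C' e), fun e => by simp⟩
  have heavyC : ∀ e ∈ comp G s(x, y), Hv ι G C' e := by
    intro e he hemb
    rw [← comp_eq (mem_comp.1 he).2, hcomp] at hemb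
    obtain ⟨f, hf1, hf2⟩ := hemb
    refine necklace hxy ?_ ?_ ?_ hι hf1 hf2
    · rw [← hcomp]
      exact hnd.sublist (comp_sub _ _)
    · intro e he
      rw [← hcomp] at he
      exact hloop e (mem_comp.1 he).1
    · rw [← hcomp]
      exact comp_conn
  have heavyPair : ∀ e ∈ G, Hv ι G C' e → ∃ e' ∈ comp G e, e' ≠ e ∧ Touch e e' := by
    intro e he hHe
    by_contra hc
    push Not at hc
    apply hHe
    have hall : ∀ e' ∈ comp G e, e' = e := by
      apply comp_induction (fun b => b = e) rfl _ he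
      intro a _ b hb hae hab
      by_contra hbe
      rw [hae] at hab
      exact hc b hb hbe hab
    have hsing : comp G e <+ [e] := by
      apply sub_of_subset hnd (comp_sub G e) (List.singleton_sublist.2 he)
      intro b hb
      rw [hall b hb]
      exact List.mem_singleton_self _
    have hle := hloop e he
    have hlr := hloop r₀ (hG'G _ hr₀)
    have hmemr : Sym2.map (ι 0) r₀ ∈ seq3 ι C' := mem_seq3.2 ⟨0, r₀, hr₀C, rfl⟩
    clear hc hall hHe he
    induction e using Sym2.ind with
    | _ a b =>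
      clear hr₀ hr₀t hr₀C
      induction r₀ using Sym2.ind with
      | _ c d =>
        rw [Sym2.mk_isDiag_iff] at hle hlr
        refine ⟨fun u => if u = a then ι 0 c else ι 0 d, ?_, ?_⟩
        · intro e1 he1 e2 he2 u v hu hv huv
          have h1 := List.mem_singleton.1 (hsing.subset he1)
          have h2 := List.mem_singleton.1 (hsing.subset he2)
          subst h1 h2
          have hne : ι 0 c ≠ ι 0 d := fun h => hlr (hι.inj 0 h)
          rcases Sym2.mem_iff.1 hu with h | h <;> rcases Sym2.mem_iff.1 hv with h' | h' <;>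
            subst h h'
          · rfl
          · simp only [if_true, if_neg (Ne.symm hle)] at huv
            exact absurd huv hne
          · simp only [if_true, if_neg (Ne.symm hle)] at huv
            exact absurd huv.symm hne
          · rfl
        · refine (hsing.map _).trans ?_
          simp only [List.map_cons, List.map_nil, Sym2.map_mk, if_true, if_neg (Ne.symm hle)]
          exact List.singleton_sublist.2 hmemr
  -- factors of the heavy part
  obtain ⟨Fs, hFs1, hFs2, hFs3⟩ := exists_factors (G.filter Hb).length (G.filter Hb) le_rfl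
  have hgH : s(x, y) ∈ G.filter Hb :=
    List.mem_filter.2 ⟨hgG, (hHb _).2 (heavyC _ (self_mem_comp hgG))⟩
  cases Fs with
  | nil =>
    exfalso
    rw [hFs1] at hgH
    simp at hgH
  | cons F₀ Fs' =>
  obtain ⟨hs, hhs⟩ : ∃ hs : List (List (Sym2 U) × List (Sym2 U)),
      hs = Fs'.map (fun F => (F.take 1, F.drop 1)) := ⟨_, rfl⟩
  have hjoins : joins hs = Fs'.flatten := by
    rw [hhs]
    unfold joins
    rw [List.map_map]
    congr 1
    conv_rhs => rw [← List.map_id Fs']
    apply List.map_congr_left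
    intro F _
    exact List.take_append_drop 1 F
  have hGh : G.filter Hb = F₀ ++ joins hs := by
    rw [hFs1, hjoins, List.flatten_cons]
  obtain ⟨hF₀ne, hF₀irr⟩ := hFs2 F₀ (by simp)
  have hF₀dj : Dsj F₀ (joins hs) := by
    rw [hjoins]
    intro e he e' he'
    obtain ⟨F, hF, he'⟩ := List.mem_flatten.1 he'
    exact (List.pairwise_cons.1 hFs3).1 F hF e he e' he'
  obtain ⟨G₀, R, hG₀R, hG₀, hR⟩ := List.filter_eq_append_iff.1 hGh
  obtain ⟨Ss, Z, hRZ, hZ, hSs⟩ := lift_split Hb hs R hR
  -- `G₀` starts with the first edge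
  have hG₀ne : G₀ ≠ [] := by
    rintro rfl
    exact hF₀ne hG₀.symm
  obtain ⟨g, G₀', rfl⟩ := List.exists_cons_of_ne_nil hG₀ne
  have hgG₀ : g = s(x, y) ∧ G' = G₀' ++ R := by
    rw [hG, List.cons_append] at hG₀R
    injection hG₀R with h1 h2
    exact ⟨h1.symm, h2⟩
  obtain ⟨rfl, hG'R⟩ := hgG₀
  have hF₀g : s(x, y) ∈ F₀ := by
    rw [← hG₀]
    exact List.mem_filter.2 ⟨List.mem_cons_self, (hHb _).2 (heavyC _ (self_mem_comp hgG))⟩
  -- `C` is contained in `F₀`
  have hCF : ∀ e ∈ comp G s(x, y), e ∈ F₀ := by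
    apply comp_induction (fun e => e ∈ F₀) hF₀g _ hgG
    intro a _ b hb ha hab
    have hbH : b ∈ G.filter Hb :=
      List.mem_filter.2 ⟨(mem_comp.1 hb).1, (hHb _).2 (heavyC _ hb)⟩
    rw [hGh] at hbH
    rcases List.mem_append.1 hbH with h | h
    · exact h
    · exact absurd hab (hF₀dj a ha b h)
  have hG₀'G : G₀' <+ G := by
    rw [hG₀R]
    exact (List.sublist_cons_self _ _).trans (List.sublist_append_left _ _)
  have hC'G₀' : C' <+ G₀' := by
    apply sub_of_subset hnd _ hG₀'G
    · intro e he
      have h1 := hCF e ((hC' e).1 he).2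
      rw [← hG₀] at h1
      rcases List.mem_cons.1 (List.mem_filter.1 h1).1 with h2 | h2
      · exfalso
        apply hnd'.1
        rw [← h2]
        exact ((hC' e).1 he).1
      · exact h2
    · rw [hC'def, hG]
      exact List.filter_sublist.trans (List.sublist_cons_self _ _)
  -- the shuffle
  obtain ⟨E', hE'⟩ : ∃ E', E' = seq3 ι G₀' ++ (mixs (ι 0) (ι 1) (ι 2) Ss ++ seq3 ι Z) := ⟨_, rfl⟩
  have hHperm : (seq3 ι [s(x, y)] ++ E').Perm (seq3 ι G) := by
    rw [List.perm_iff_count]
    intro e
    rw [hE', hG, hG'R, hRZ]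
    simp only [seq3, List.count_append, List.map_append, List.map_cons, List.map_nil, count_mixs,
      List.count_cons]
    simp only [List.count_nil]
    omega
  have hHnd : (seq3 ι [s(x, y)] ++ E').Nodup := by
    rw [hHperm.nodup_iff]
    exact map_seq3_nodup hι hnd hloop
  have hE'nd : E'.Nodup := hHnd.sublist (List.sublist_append_right _ _)
  have hE1 : ∀ e ∈ E', ∃ j, ∃ r ∈ G', Sym2.map (ι j) r = e := by
    intro e he
    rw [hE'] at he
    rcases List.mem_append.1 he with he | he
    · obtain ⟨j, r, hr, h⟩ := mem_seq3.1 he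
      exact ⟨j, r, by rw [hG'R]; exact List.mem_append_left _ hr, h⟩
    rcases List.mem_append.1 he with he | he
    · obtain ⟨j, r, hr, h⟩ := mem_seq3.1 (mixs_subset _ _ _ _ he)
      exact ⟨j, r, by
        rw [hG'R, hRZ]; exact List.mem_append_right _ (List.mem_append_left _ hr), h⟩
    · obtain ⟨j, r, hr, h⟩ := mem_seq3.1 he
      exact ⟨j, r, by
        rw [hG'R, hRZ]; exact List.mem_append_right _ (List.mem_append_right _ hr), h⟩
  have hE2 : ∀ j, G'.map (Sym2.map (ι j)) <+ E' := by
    intro j
    rw [hE', hG'R, hRZ, List.map_append, List.map_append]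
    exact (map_sub_seq3 ι G₀' j).append ((map_sub_mixs ι Ss j).append (map_sub_seq3 ι Z j))
  have hE3 : seq3 ι C' <+ E' := by
    rw [hE']
    exact (seq3_sub hC'G₀').trans (List.sublist_append_left _ _)
  -- no copy of `G` in `E'`
  have hfree : ∀ f : U → W, InjV f G → ¬ (G.map (Sym2.map f) <+ E') := by
    intro f hf hsub
    have himg := embed_heavy hG hι hC' hE'nd hE1 hE2 hE3 hf hsub
    obtain ⟨Q, hQ⟩ : ∃ Q, Q = F₀.filter (fun e => decide (e ∉ comp G s(x, y))) := ⟨_, rfl⟩
    have hmemQ : ∀ e, e ∈ Q ↔ e ∈ F₀ ∧ e ∉ comp G s(x, y) := by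
      intro e
      rw [hQ, List.mem_filter]
      simp
    have hF₀sub : F₀ <+ G := by
      have : F₀ <+ G.filter Hb := by
        rw [hGh]
        exact List.sublist_append_left _ _
      exact this.trans List.filter_sublist
    have hjsub : joins hs <+ G := by
      have : joins hs <+ G.filter Hb := by
        rw [hGh]
        exact List.sublist_append_right _ _
      exact this.trans List.filter_sublist
    have hQF : Q <+ F₀ := by
      rw [hQ]
      exact List.filter_sublist
    have hQG₀' : Q <+ G₀' := by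
      apply sub_of_subset hnd (hQF.trans hF₀sub) hG₀'G
      intro e he
      have h1 := (hmemQ e).1 he
      have h2 := h1.1
      rw [← hG₀] at h2
      rcases List.mem_cons.1 (List.mem_filter.1 h2).1 with h3 | h3
      · exact absurd (by rw [h3]; exact self_mem_comp hgG) h1.2
      · exact h3
    have hShE : seq3 ι Q ++ mixs (ι 0) (ι 1) (ι 2) hs <+ E' := by
      rw [hE']
      refine (seq3_sub hQG₀').append ?_
      refine List.Sublist.trans ?_ (List.sublist_append_left _ _)
      rw [← hSs]
      exact mixs_filt_sub _ _ _ _ _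
    have hGhsub : (G.filter Hb).map (Sym2.map f) <+ seq3 ι Q ++ mixs (ι 0) (ι 1) (ι 2) hs := by
      apply sub_of_subset hE'nd ((List.filter_sublist.map _).trans hsub) hShE
      intro b hb
      obtain ⟨e, he, rfl⟩ := List.mem_map.1 hb
      obtain ⟨he1, he2⟩ := List.mem_filter.1 he
      obtain ⟨j, r, hr, hrC, hrH, h⟩ := himg e he1 ((hHb e).1 he2)
      rw [← h]
      have hrGh : r ∈ G.filter Hb := List.mem_filter.2 ⟨hG'G r hr, (hHb r).2 hrH⟩
      rw [hGh] at hrGh
      rcases List.mem_append.1 hrGh with h1 | h1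
      · exact List.mem_append_left _ (mem_seq3.2 ⟨j, r, (hmemQ r).2 ⟨h1, hrC⟩, rfl⟩)
      · exact List.mem_append_right _ ((map_sub_mixs ι hs j).subset (List.mem_map_of_mem h1))
    -- edges outside of `C` are separated
    have hsep : ∀ (i j : ZMod 3) (r r' : Sym2 U), i ≠ j → r ∈ G → r ∉ comp G s(x, y) →
        ¬ Touch (Sym2.map (ι i) r) (Sym2.map (ι j) r') := by
      intro i j r r' hij hr hrC ht
      rcases hι.touch ht with h | h
      · exact hij h.1
      · exact hrC (comp_closed (self_mem_comp hgG) hr h.1)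
    have hjC : ∀ e ∈ joins hs, e ∉ comp G s(x, y) := by
      intro e he heC
      exact hF₀dj e (hCF e heC) e he (Touch.refl e)
    have hSep : Sep (joins hs) (ι 0) (ι 1) (ι 2) :=
      { p_inj := hι.inj 0
        q_inj := hι.inj 1
        r_inj := hι.inj 2
        pq := fun e he e' _ => hsep 0 1 e e' (by decide) (hjsub.subset he) (hjC e he)
        pr := fun e he e' _ => hsep 0 2 e e' (by decide) (hjsub.subset he) (hjC e he)
        qr := fun e he e' _ => hsep 1 2 e e' (by decide) (hjsub.subset he) (hjC e he) }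
    have hdj : Dsj (seq3 ι Q) (mixs (ι 0) (ι 1) (ι 2) hs) := by
      intro a ha b hb ht
      obtain ⟨i, r, hr, rfl⟩ := mem_seq3.1 ha
      obtain ⟨j, r', hr', rfl⟩ := mem_seq3.1 (mixs_subset _ _ _ _ hb)
      have h1 := (hmemQ r).1 hr
      by_cases hij : i = j
      · subst hij
        exact hF₀dj r h1.1 r' hr' (touch_map_inj (hι.inj i) ht)
      · exact hsep i j r r' hij (hF₀sub.subset h1.1) h1.2 ht
    rw [hGh] at hGhsub
    have hpairF : ∀ F ∈ F₀ :: Fs', HasPair F := by
      intro F hF
      obtain ⟨hFne, -⟩ := hFs2 F hF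
      obtain ⟨e, he⟩ := List.exists_mem_of_ne_nil F hFne
      have heH : e ∈ G.filter Hb := by
        rw [hFs1]
        exact List.mem_flatten.2 ⟨F, hF, he⟩
      obtain ⟨he1, he2⟩ := List.mem_filter.1 heH
      obtain ⟨e', he', hne, ht⟩ := heavyPair e he1 ((hHb e).1 he2)
      have he'H : e' ∈ G.filter Hb := by
        refine List.mem_filter.2 ⟨(mem_comp.1 he').1, (hHb e').2 ?_⟩
        have h1 := (hHb e).1 he2
        unfold Hv at h1 ⊢
        rw [← comp_eq (mem_comp.1 he').2]
        exact h1
      rw [hFs1] at he'H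
      obtain ⟨F', hF', he'F⟩ := List.mem_flatten.1 he'H
      have hFF : F = F' := by
        by_contra hFF
        have : Std.Symm (Dsj (V := U)) := ⟨fun _ _ h => h.symm⟩
        exact List.Pairwise.forall hFs3 hF hF' hFF e he e' he'F ht
      rw [← hFF] at he'F
      exact ⟨e, he, e', he'F, hne.symm, ht⟩
    have hsplit := irr_split (X := []) hF₀irr (by rw [List.nil_append]; exact hGhsub) hdj
    rcases hsplit with h | h
    · -- `F₀` in the three copies of `Q`
      rw [List.nil_append] at h
      have hlen : Q.length < F₀.length := by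
        apply lt_of_le_of_ne hQF.length_le
        intro hl
        have hQF₀ : Q = F₀ := hQF.eq_of_length hl
        have h1 := hF₀g
        rw [← hQF₀] at h1
        exact ((hmemQ _).1 h1).2 (self_mem_comp hgG)
      have hQQ : ∀ i j, i ≠ j → Dsj (Q.map (Sym2.map (ι i))) (Q.map (Sym2.map (ι j))) := by
        intro i j hij a ha b hb
        obtain ⟨r, hr, rfl⟩ := List.mem_map.1 ha
        obtain ⟨r', hr', rfl⟩ := List.mem_map.1 hb
        have h1 := (hmemQ r).1 hr
        exact hsep i j r r' hij (hF₀sub.subset h1.1) h1.2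
      have hno : ∀ j, ¬ (F₀.map (Sym2.map f) <+ Q.map (Sym2.map (ι j))) := by
        intro j hj
        have := hj.length_le
        rw [List.length_map, List.length_map] at this
        omega
      unfold seq3 at h
      rcases irr_map hF₀irr h (dsj_append_right.2 ⟨hQQ 0 1 (by decide), hQQ 0 2 (by decide)⟩)
        with h1 | h1
      · exact hno 0 h1
      · rcases irr_map hF₀irr h1 (hQQ 1 2 (by decide)) with h2 | h2
        · exact hno 1 h2
        · exact hno 2 h2
    · refine mixs_free (ι 0) (ι 1) (ι 2) f hs ?_ hSep ?_ F₀ (hpairF F₀ (by simp)) h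
      · intro s hs'
        rw [hhs] at hs'
        obtain ⟨F, hF, rfl⟩ := List.mem_map.1 hs'
        obtain ⟨hFne, hFirr⟩ := hFs2 F (List.mem_cons_of_mem _ hF)
        obtain ⟨a, F1, rfl⟩ := List.exists_cons_of_ne_nil hFne
        refine ⟨⟨a, by simp⟩, ?_, ?_⟩
        · simpa using hFirr
        · simpa using hpairF _ (List.mem_cons_of_mem _ hF)
      · rw [hhs, List.pairwise_map]
        refine (List.pairwise_cons.1 hFs3).2.imp ?_
        intro A B hAB
        simp only [List.take_append_drop]
        exact hAB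
  -- conclusion
  refine ⟨W, hW1, hW2, seq3 ι [s(x, y)] ++ E', hHnd, ?_, ?_, ?_⟩
  · intro e he
    rw [hHperm.mem_iff] at he
    obtain ⟨j, r, hr, rfl⟩ := mem_seq3.1 he
    exact not_isDiag_map (hι.inj j) (hloop r hr)
  · intro a b f hab hf hav hsub
    have hStouch : ∀ e ∈ seq3 ι [s(x, y)], ∀ e' ∈ seq3 ι [s(x, y)], Touch e e' := by
      intro e he e' he'
      obtain ⟨i, r, hr, rfl⟩ := mem_seq3.1 he
      obtain ⟨j, r', hr', rfl⟩ := mem_seq3.1 he'
      rw [List.mem_singleton] at hr hr'
      subst hr hr'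
      have hij : i = j ∨ j = i + 1 ∨ i = j + 1 := by
        clear he he'
        revert i j
        decide
      rcases hij with h | h | h
      · rw [h]
        exact Touch.refl _
      · refine ⟨ι i y, Sym2.mem_map.2 ⟨y, by simp, rfl⟩, Sym2.mem_map.2 ⟨x, by simp, ?_⟩⟩
        exact ((hι i j y x).2 (Or.inr (Or.inl ⟨h, rfl, rfl⟩))).symm
      · refine ⟨ι i x, Sym2.mem_map.2 ⟨x, by simp, rfl⟩, Sym2.mem_map.2 ⟨y, by simp, ?_⟩⟩
        exact ((hι i j x y).2 (Or.inr (Or.inr ⟨h, rfl, rfl⟩))).symm
    obtain ⟨l1, l2, hl, h1, h2⟩ := List.sublist_append_iff.1 hsub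
    cases l1 with
    | nil =>
      rw [List.nil_append] at hl
      rw [← hl] at h2
      exact hfree f hf ((List.sublist_cons_self _ _).trans h2)
    | cons c l1 =>
      rw [List.cons_append] at hl
      injection hl with hc hl
      cases l1 with
      | nil =>
        rw [List.nil_append] at hl
        rw [← hl] at h2
        exact hfree f hf h2
      | cons d l1 =>
        rw [hG, List.map_cons, List.cons_append] at hl
        injection hl with hd hl
        have m1 : s(a, b) ∈ seq3 ι [s(x, y)] := h1.subset (by rw [hc]; simp)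
        have m2 : Sym2.map f s(x, y) ∈ seq3 ι [s(x, y)] := h1.subset (by rw [hd]; simp)
        obtain ⟨v, hv1, hv2⟩ := hStouch _ m1 _ m2
        obtain ⟨u, hu, rfl⟩ := Sym2.mem_map.1 hv2
        obtain ⟨g1, g2⟩ := hav _ hgG u hu
        rcases Sym2.mem_iff.1 hv1 with h | h
        · exact g1 h
        · exact g2 h
  · intro w
    obtain ⟨j, hj⟩ := hmiss w
    refine ⟨ι j, fun e _ e' _ u v _ _ h => hι.inj j h, ?_, fun e _ u _ => hj u⟩
    rw [hG, List.map_cons]
    have h1 : [Sym2.map (ι j) s(x, y)] <+ seq3 ι [s(x, y)] := by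
      simpa using map_sub_seq3 ι [s(x, y)] j
    exact h1.append (hE2 j)

/-- Every edge-ordered graph has the property `Star`. -/
theorem star_all [Finite U] (n : ℕ) : ∀ G : List (Sym2 U), G.length ≤ n → G.Nodup →
    (∀ e ∈ G, ¬ e.IsDiag) → Star G := by
  induction n with
  | zero =>
    intro G hG _ _
    have : G = [] := List.eq_nil_of_length_eq_zero (by omega)
    subst this
    exact star_nil
  | succ n ih =>
    intro G hlen hnd hloop
    cases G with
    | nil => exact star_nil
    | cons g G' =>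
      obtain ⟨x, y, rfl⟩ : ∃ x y, g = s(x, y) := by
        induction g using Sym2.ind with
        | _ a b => exact ⟨a, b, rfl⟩
      have hxy : x ≠ y := by
        have := hloop _ List.mem_cons_self
        simpa using this
      by_cases hC : ∃ r ∈ G', Touch s(x, y) r
      · exact star_main hxy rfl hnd hloop hC
      · have h1 : Star ([s(x, y)] ++ G') := by
          apply star_append (star_single hxy)
          · apply ih G' _ (List.nodup_cons.1 hnd).2 (fun e he => hloop e (by simp [he]))
            rw [List.length_cons] at hlen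
            omega
          · intro e he e' he' ht
            rw [List.mem_singleton] at he
            subst he
            exact hC ⟨e', he', ht⟩
          · intro e he
            rw [List.mem_singleton] at he
            subst he
            simpa using hxy
        exact h1

end Pool.Agent.Sat448
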