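import Mathlib
import Pool.Agent.Sat448.Final

set_option autoImplicit false

namespace Pool.Agent.Sat448

open List

variable {U V W : Type}

theorem exists_max {G : List (Sym2 U)} (h : Star G) :
    ∃ (W : Type) (_ : Finite W) (_ : Nonempty W) (L : List (Sym2 W)), L.Nodup ∧
      (∀ e ∈ L, ¬ e.IsDiag) ∧ Avoids G L ∧ Robust G L ∧
      ∀ u v, u ≠ v → s(u, v) ∉ L → ¬ Avoids G (s(u, v) :: L) := by
  classical
  obtain ⟨W, hW1, hW2, H, h1, h2, h3, h4⟩ := h
  have : Fintype W := Fintype.ofFinite W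
  have key : ∀ k : ℕ, ∀ L : List (Sym2 W), L.Nodup → (∀ e ∈ L, ¬ e.IsDiag) → Avoids G L →
      Robust G L → Fintype.card (Sym2 W) - L.length ≤ k →
      ∃ L : List (Sym2 W), L.Nodup ∧ (∀ e ∈ L, ¬ e.IsDiag) ∧ Avoids G L ∧ Robust G L ∧
        ∀ u v, u ≠ v → s(u, v) ∉ L → ¬ Avoids G (s(u, v) :: L) := by
    intro k
    induction k with
    | zero =>
      intro L a1 a2 a3 a4 a5
      refine ⟨L, a1, a2, a3, a4, ?_⟩
      intro u v _ huvL _
      have h5 : (s(u, v) :: L).Nodup := List.nodup_cons.2 ⟨huvL, a1⟩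
      have h6 := h5.length_le_card
      rw [List.length_cons] at h6
      omega
    | succ k ih =>
      intro L a1 a2 a3 a4 a5
      by_cases hmax : ∀ u v, u ≠ v → s(u, v) ∉ L → ¬ Avoids G (s(u, v) :: L)
      · exact ⟨L, a1, a2, a3, a4, hmax⟩
      · push Not at hmax
        obtain ⟨u, v, huv, huvL, hav⟩ := hmax
        have h5 : (s(u, v) :: L).Nodup := List.nodup_cons.2 ⟨huvL, a1⟩
        refine ih (s(u, v) :: L) h5 ?_ hav ?_ ?_
        · intro e he
          rcases List.mem_cons.1 he with rfl | he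
          · simpa using huv
          · exact a2 e he
        · intro w
          obtain ⟨f, b1, b2, b3⟩ := a4 w
          exact ⟨f, b1, b2.trans (List.sublist_cons_self _ _), b3⟩
        · rw [List.length_cons]
          omega
  obtain ⟨L, c1, c2, c3, c4, c5⟩ := key _ H h1 h2 h3 h4 le_rfl
  exact ⟨W, hW1, hW2, L, c1, c2, c3, c4, c5⟩

/-- The list of the edges of `e₀ + G`. -/
def e0L (G : List (Sym2 U)) : List (Sym2 (U ⊕ Fin 2)) :=
  s(Sum.inr 0, Sum.inr 1) :: G.map (Sym2.map Sum.inl)

theorem e0L_map (G : List (Sym2 U)) (f : U ⊕ Fin 2 → V) :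
    (e0L G).map (Sym2.map f) =
      s(f (Sum.inr 0), f (Sum.inr 1)) :: G.map (Sym2.map (f ∘ Sum.inl)) := by
  unfold e0L
  rw [List.map_cons, map_map_sym2, Sym2.map_mk]

/-- Bounded saturation in terms of lists of edges. -/
theorem list_saturation [Finite U] (G : List (Sym2 U)) (hnd : G.Nodup)
    (hloop : ∀ e ∈ G, ¬ e.IsDiag) :
    ∃ C N : ℕ, ∀ n ≥ N, ∃ L : List (Sym2 (Fin n)), L.Nodup ∧ (∀ e ∈ L, ¬ e.IsDiag) ∧
      L.length ≤ C ∧
      (¬ ∃ f : U ⊕ Fin 2 → Fin n, Function.Injective f ∧ (e0L G).map (Sym2.map f) <+ L) ∧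
      ∀ u v, u ≠ v → s(u, v) ∉ L →
        ∃ f : U ⊕ Fin 2 → Fin n, Function.Injective f ∧
          (e0L G).map (Sym2.map f) <+ s(u, v) :: L := by
  classical
  obtain ⟨W, hW1, hW2, L, h1, h2, h3, h4, h5⟩ := exists_max (star_all G.length G le_rfl hnd hloop)
  refine ⟨L.length, Nat.card W + (Nat.card U + 2), fun n hn => ?_⟩
  have : Fintype W := Fintype.ofFinite W
  obtain ⟨j⟩ : Nonempty (W ↪ Fin n) := by
    apply Function.Embedding.nonempty_of_card_le
    rw [Fintype.card_fin, ← Nat.card_eq_fintype_card]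
    omega
  have hj := j.injective
  have hcard : Nat.card U + 2 ≤ Fintype.card (Fin n) := by
    rw [Fintype.card_fin]
    omega
  have hav := h3.map_inj hj
  -- from copies up to isolated vertices to copies
  have ext : ∀ (L' : List (Sym2 (Fin n))) (a b : Fin n) (f : U → Fin n), a ≠ b → InjV f G →
      (∀ e ∈ G, ∀ u ∈ e, f u ≠ a ∧ f u ≠ b) → (s(a, b) :: G.map (Sym2.map f)) <+ L' →
      ∃ f : U ⊕ Fin 2 → Fin n, Function.Injective f ∧ (e0L G).map (Sym2.map f) <+ L' := by
    intro L' a b f hab hf hfab hsub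
    obtain ⟨F, hF1, hF2, hF3⟩ := extend_embedding G f a b hab hf hfab hcard
    refine ⟨F, F.injective, ?_⟩
    rw [e0L_map, hF1, hF2, map_congr_sym2 (g := f)]
    · exact hsub
    · intro e he u hu
      exact hF3 e he u hu
  refine ⟨L.map (Sym2.map j), h1.map (Sym2.map.injective hj), ?_, by simp, ?_, ?_⟩
  · intro e he
    obtain ⟨c, hc, rfl⟩ := List.mem_map.1 he
    exact not_isDiag_map hj (h2 c hc)
  · rintro ⟨f, hf, hsub⟩
    rw [e0L_map] at hsub
    refine hav _ _ (f ∘ Sum.inl) ?_ ?_ ?_ hsub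
    · intro h
      have := hf h
      simp at this
    · intro e _ e' _ u v _ _ h
      exact Sum.inl_injective (hf h)
    · intro e _ u _
      constructor
      · intro h
        have := hf h
        simp at this
      · intro h
        have := hf h
        simp at this
  · intro u v huv huvL
    by_cases hin : (∃ u', j u' = u) ∧ (∃ v', j v' = v)
    · obtain ⟨⟨u', rfl⟩, ⟨v', rfl⟩⟩ := hin
      have huv' : u' ≠ v' := fun h => huv (by rw [h])
      have hm : s(u', v') ∉ L := by
        intro h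
        apply huvL
        exact List.mem_map.2 ⟨_, h, by rw [Sym2.map_mk]⟩
      have h6 := h5 u' v' huv' hm
      unfold Avoids at h6
      push Not at h6
      obtain ⟨a, b, f, hab, hf, hfab, hsub⟩ := h6
      refine ext _ (j a) (j b) (j ∘ f) (fun h => hab (hj h)) ?_ ?_ ?_
      · intro e he e' he' p q hp hq h
        exact hf e he e' he' p q hp hq (hj h)
      · intro e he p hp
        obtain ⟨g1, g2⟩ := hfab e he p hp
        exact ⟨fun h => g1 (hj h), fun h => g2 (hj h)⟩
      · have h7 := hsub.map (Sym2.map j)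
        rw [List.map_cons, List.map_cons, map_map_sym2, Sym2.map_mk, Sym2.map_mk] at h7
        exact h7
    · -- one of the vertices is outside
      have key : ∀ p q : Fin n, p ≠ q → (¬ ∃ p', j p' = p) → ∃ f : U → Fin n, InjV f G ∧
          (∀ e ∈ G, ∀ u ∈ e, f u ≠ p ∧ f u ≠ q) ∧ G.map (Sym2.map f) <+ L.map (Sym2.map j) := by
        intro p q hpq hp
        by_cases hq : ∃ q', j q' = q
        · obtain ⟨q', rfl⟩ := hq
          obtain ⟨f, b1, b2, b3⟩ := h4 q'
          refine ⟨j ∘ f, ?_, ?_, ?_⟩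
          · intro e he e' he' a b ha hb h
            exact b1 e he e' he' a b ha hb (hj h)
          · intro e he u hu
            exact ⟨fun h => hp ⟨_, h⟩, fun h => b3 e he u hu (hj h)⟩
          · rw [← map_map_sym2]
            exact b2.map _
        · obtain ⟨f, b1, b2, -⟩ := h4 (Classical.choice hW2)
          refine ⟨j ∘ f, ?_, ?_, ?_⟩
          · intro e he e' he' a b ha hb h
            exact b1 e he e' he' a b ha hb (hj h)
          · intro e he u hu
            exact ⟨fun h => hp ⟨_, h⟩, fun h => hq ⟨_, h⟩⟩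
          · rw [← map_map_sym2]
            exact b2.map _
      have key2 : ∃ f : U → Fin n, InjV f G ∧
          (∀ e ∈ G, ∀ p ∈ e, f p ≠ u ∧ f p ≠ v) ∧ G.map (Sym2.map f) <+ L.map (Sym2.map j) := by
        by_cases hu : ∃ u', j u' = u
        · have hv : ¬ ∃ v', j v' = v := fun hv => hin ⟨hu, hv⟩
          obtain ⟨f, b1, b2, b3⟩ := key v u huv.symm hv
          exact ⟨f, b1, fun e he p hp => (b2 e he p hp).symm, b3⟩
        · exact key u v huv hu
      obtain ⟨f, b1, b2, b3⟩ := key2
      exact ext _ u v f huv b1 b2 (b3.cons_cons _)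

end Pool.Agent.Sat448
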